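import Mathlib
import Pool.Agent.H64.Z12.Flip

/-!
Mutations of simplicial cells and reorientations, for sign relations where some of the cells may
be complete (MP_1e71f9_co).
-/

set_option autoImplicit false

namespace Pool.Agent.H89.Z12

open Pool.Agent.H77.Z12 Pool.Agent.H64.Z12

/-- The smaller one of the twelve bit mask `s` and its complement. -/
def tps (s : ℕ) : ℕ := if s < 2048 then s else 4095 - s

/-- All sign relations used; the cells of the table `tab` may be complete. -/
structure XModel (tab : ℕ) (χ T : ℕ → Bool) : Prop where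
  gp : ∀ A a b c d : ℕ, pc A = 4 → a < b → b < c → c < d → d < 12 →
    A.testBit a = false → A.testBit b = false → A.testBit c = false → A.testBit d = false →
    ¬ ((fsm χ A a b == fsm χ A c d) = !(fsm χ A a c == fsm χ A b d) ∧
      (fsm χ A a b == fsm χ A c d) = (fsm χ A a d == fsm χ A b c))
  cc : ∀ A, pc A = 5 → ∀ (ε : Bool) (s : ℕ),
    (∀ j < 12, A.testBit j = false → s.testBit j = xor (csm χ A j) ε) → T s = true
  kc : ∀ A, pc A = 7 → ∀ (ε : Bool) (s : ℕ),
    (∀ j < 12, A.testBit j = true → s.testBit j = xor (ksm χ A j) ε) → T s = false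
  anti : ∀ s, T (4095 ^^^ s) = T s
  bad : ∀ s < 4096, tab.testBit (tps s) = false → T s = true → ∃ i < 12, T (s ^^^ 2 ^ i) = false

theorem xmodel_of_model {tab : ℕ} {χ T : ℕ → Bool} (h : Model χ T) : XModel tab χ T where
  gp := h.gp
  cc := h.cc
  kc := h.kc
  anti := h.anti
  bad s _ _ hs := h.bad s hs

/-! ### Masks -/

theorem xorr_congr {f g : ℕ → Bool} : ∀ {k : ℕ}, (∀ i < k, f i = g i) → xorr k f = xorr k g
  | 0, _ => rfl
  | k + 1, h => by
    rw [xorr, xorr, h k (Nat.lt_succ_self k), xorr_congr fun i hi => h i (by omega)]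

theorem xorr_one {f g : ℕ → Bool} {x : ℕ} {e : Bool} : ∀ {k : ℕ}, x < k →
    (∀ i < k, i ≠ x → f i = g i) → f x = xor (g x) e → xorr k f = xor (xorr k g) e
  | 0, hx, _, _ => absurd hx (Nat.not_lt_zero x)
  | k + 1, hx, h, he => by
    rw [xorr, xorr]
    by_cases hxk : x = k
    · subst hxk
      rw [he, xorr_congr fun i hi => h i (by omega) (by omega)]
      cases g x <;> cases e <;> cases xorr x g <;> rfl
    · rw [h k (Nat.lt_succ_self k) (Ne.symm hxk),
        xorr_one (by omega) (fun i hi => h i (by omega)) he]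
      cases g k <;> cases e <;> cases xorr k g <;> rfl

theorem ipm_or {A x : ℕ} (y : ℕ) (hx : x < 12) (h : A.testBit x = false) :
    ipm (A ||| 2 ^ x) y = xor (ipm A y) (decide (y < x)) := by
  unfold ipm
  refine xorr_one hx (fun i _ hi => ?_) ?_
  · rw [testBit_or_pow, decide_eq_false (Ne.symm hi), Bool.or_false]
  · rw [testBit_or_pow, h, decide_eq_true rfl]
    cases decide (y < x) <;> rfl

theorem ipm_xor {A x : ℕ} (y : ℕ) (hx : x < 12) :
    ipm (A ^^^ 2 ^ x) y = xor (ipm A y) (decide (y < x)) := by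
  unfold ipm
  refine xorr_one hx (fun i _ hi => ?_) ?_
  · rw [testBit_xor_pow, decide_eq_false (Ne.symm hi), Bool.xor_false]
  · rw [testBit_xor_pow, decide_eq_true rfl]
    cases A.testBit x <;> cases decide (y < x) <;> rfl

theorem xor_or_self {F b : ℕ} (h : F.testBit b = true) : (F ^^^ 2 ^ b) ||| 2 ^ b = F := by
  apply Nat.eq_of_testBit_eq
  intro j
  rw [testBit_or_pow, testBit_xor_pow]
  by_cases hj : b = j
  · subst hj
    rw [h, decide_eq_true rfl]
    rfl
  · rw [decide_eq_false hj, Bool.xor_false, Bool.or_false]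

theorem or_xor_self {F c : ℕ} (h : F.testBit c = false) : (F ||| 2 ^ c) ^^^ 2 ^ c = F := by
  apply Nat.eq_of_testBit_eq
  intro j
  rw [testBit_xor_pow, testBit_or_pow]
  by_cases hj : c = j
  · subst hj
    rw [h, decide_eq_true rfl]
    rfl
  · rw [decide_eq_false hj, Bool.xor_false, Bool.or_false]

theorem or_xor_comm {F c j : ℕ} (h : c ≠ j) :
    (F ||| 2 ^ c) ^^^ 2 ^ j = (F ^^^ 2 ^ j) ||| 2 ^ c := by
  apply Nat.eq_of_testBit_eq
  intro i
  rw [testBit_xor_pow, testBit_or_pow, testBit_or_pow, testBit_xor_pow]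
  by_cases hi : c = i
  · subst hi
    rw [decide_eq_true rfl, decide_eq_false (Ne.symm h)]
    cases F.testBit c <;> rfl
  · rw [decide_eq_false hi, Bool.or_false, Bool.or_false]

theorem pc_or {A c : ℕ} (hc : c < 12) (h : A.testBit c = false) : pc (A ||| 2 ^ c) = pc A + 1 := by
  have e := toSet_or A ⟨c, hc⟩
  have e' : toSet (A ||| 2 ^ c) = insert (⟨c, hc⟩ : Fin 12) (toSet A) := e
  rw [← card_toSet, ← card_toSet, e', Finset.card_insert_of_notMem]
  rw [mem_toSet]
  show ¬ A.testBit c = true
  rw [h]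
  decide

theorem pc_xor {A c : ℕ} (hc : c < 12) (h : A.testBit c = true) : pc (A ^^^ 2 ^ c) + 1 = pc A := by
  have e' : toSet (A ^^^ 2 ^ c) = (toSet A).erase ⟨c, hc⟩ := toSet_xor A ⟨c, hc⟩ h
  rw [← card_toSet, ← card_toSet, e', Finset.card_erase_add_one]
  exact mem_toSet.2 h

theorem or_lt {A x : ℕ} (hA : A < 4096) (hx : x < 12) : A ||| 2 ^ x < 4096 := by
  have h2 : (2 : ℕ) ^ x < 2 ^ 12 := Nat.pow_lt_pow_right (by norm_num) hx
  simpa using Nat.or_lt_two_pow (n := 12) (by simpa using hA) h2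

theorem xor_lt {A x : ℕ} (hA : A < 4096) (hx : x < 12) : A ^^^ 2 ^ x < 4096 := by
  have h2 : (2 : ℕ) ^ x < 2 ^ 12 := Nat.pow_lt_pow_right (by norm_num) hx
  simpa using Nat.xor_lt_two_pow (n := 12) (by simpa using hA) h2

theorem xor_lt' {A B : ℕ} (hA : A < 4096) (hB : B < 4096) : A ^^^ B < 4096 := by
  simpa using Nat.xor_lt_two_pow (n := 12) (by simpa using hA) (by simpa using hB)

theorem exists_or {A F : ℕ} (hA4 : A < 4096) (hF4 : F < 4096) (h : pc F = pc A + 1)
    (hsub : ∀ c < 12, A.testBit c = true → F.testBit c = true) :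
    ∃ i < 12, A.testBit i = false ∧ F.testBit i = true ∧ A ||| 2 ^ i = F := by
  have hs : toSet A ⊆ toSet F := fun x hx => mem_toSet.2 (hsub x x.2 (mem_toSet.1 hx))
  obtain ⟨x, hxF, hxA⟩ := Finset.exists_mem_notMem_of_card_lt_card
    (s := toSet A) (t := toSet F) (by rw [card_toSet, card_toSet]; omega)
  have hxA' : A.testBit x = false := by
    have : ¬ A.testBit x = true := fun h0 => hxA (mem_toSet.2 h0)
    simpa using this
  have e : toSet (A ||| 2 ^ (x : ℕ)) = toSet F := by
    apply Finset.eq_of_subset_of_card_le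
    · rw [toSet_or]
      exact Finset.insert_subset hxF hs
    · rw [card_toSet, card_toSet, pc_or x.2 hxA', h]
  refine ⟨x, x.2, hxA', mem_toSet.1 hxF, eq_of_tb (or_lt hA4 x.2) hF4 fun j hj => ?_⟩
  have h1 : (⟨j, hj⟩ : Fin 12) ∈ toSet (A ||| 2 ^ (x : ℕ)) ↔ (⟨j, hj⟩ : Fin 12) ∈ toSet F := by
    rw [e]
  rw [mem_toSet, mem_toSet] at h1
  exact Bool.eq_iff_iff.2 h1

/-- Equal or complementary. -/
theorem eq_or {s u : ℕ} {τ : Bool} (hs : s < 4096) (hu : u < 4096)
    (h : ∀ j < 12, s.testBit j = xor (u.testBit j) τ) : s = u ∨ s = 4095 ^^^ u := by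
  cases τ
  · left
    exact eq_of_tb hs hu fun j hj => by rw [h j hj, Bool.xor_false]
  · right
    refine eq_of_tb hs (xor_lt' (by norm_num) hu) fun j hj => ?_
    rw [h j hj, Nat.testBit_xor, tb_4095, decide_eq_true hj, Bool.xor_true, Bool.true_xor]

theorem of_eq_or {s u : ℕ} (h : s = u ∨ s = 4095 ^^^ u) :
    ∃ τ : Bool, ∀ j < 12, s.testBit j = xor (u.testBit j) τ := by
  rcases h with rfl | rfl
  · exact ⟨false, fun j _ => (Bool.xor_false _).symm⟩
  · refine ⟨true, fun j hj => ?_⟩
    rw [Nat.testBit_xor, tb_4095, decide_eq_true hj, Bool.xor_true, Bool.true_xor]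

/-! ### The signs around a simplicial cell -/

variable {χ T : ℕ → Bool} {F t : ℕ}

theorem vtx (hS : Simp χ F t) {b k : ℕ} (hb : b < 12) (hbF : F.testBit b = true) (hk : k < 12)
    (hkF : F.testBit k = false) :
    csm χ (F ^^^ 2 ^ b) k = xor (csm χ (F ^^^ 2 ^ b) b) (xor (t.testBit b) (t.testBit k)) := by
  have h := hS b hb hbF k hk hkF
  rw [← h]
  cases csm χ (F ^^^ 2 ^ b) k <;> cases csm χ (F ^^^ 2 ^ b) b <;> rfl

theorem kvx (hS : Simp χ F t) {j c : ℕ} (hj : j < 12) (hjF : F.testBit j = true) (hc : c < 12)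
    (hcF : F.testBit c = false) :
    ksm χ (F ||| 2 ^ c) j =
      xor (ksm χ (F ||| 2 ^ c) c) (xor (xor (t.testBit j) (t.testBit c)) true) := by
  have hcj : c ≠ j := by
    rintro rfl
    rw [hjF] at hcF
    exact Bool.noConfusion hcF
  have h := vtx hS hj hjF hc hcF
  rw [csm, csm, xor_or_self hjF, ipm_xor _ hj, ipm_xor _ hj, decide_eq_false (lt_irrefl j)] at h
  rw [ksm, ksm, or_xor_comm hcj, or_xor_self hcF, ipm_or _ hc hcF, ipm_or _ hc hcF,
    decide_eq_false (lt_irrefl c)]
  have e : decide (c < j) = !(decide (j < c)) := by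
    by_cases h1 : c < j
    · rw [decide_eq_true h1, decide_eq_false (by omega : ¬ j < c)]
      rfl
    · rw [decide_eq_false h1, decide_eq_true (by omega : j < c)]
      rfl
  rw [e] at h
  revert h
  cases χ ((F ^^^ 2 ^ j) ||| 2 ^ c) <;> cases χ F <;> cases ipm F c <;> cases ipm F j <;>
    cases decide (j < c) <;> cases t.testBit j <;> cases t.testBit c <;> decide

/-- No tope in the cone over the simplex but the simplex. -/
theorem cone (hk : ∀ A, pc A = 7 → ∀ (ε : Bool) (s : ℕ),
    (∀ j < 12, A.testBit j = true → s.testBit j = xor (ksm χ A j) ε) → T s = false)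
    (hF : pc F = 6) (hS : Simp χ F t) {s c : ℕ} {τ : Bool} (hc : c < 12)
    (hcF : F.testBit c = false) (hR : ∀ j < 12, F.testBit j = true → s.testBit j = xor (t.testBit j) τ)
    (hs : s.testBit c = xor (t.testBit c) (!τ)) : T s = false := by
  refine hk (F ||| 2 ^ c) (by rw [pc_or hc hcF, hF])
    (xor (ksm χ (F ||| 2 ^ c) c) (xor (t.testBit c) (!τ))) s fun j hj hA => ?_
  by_cases hjF : F.testBit j = true
  · rw [kvx hS hj hjF hc hcF, hR j hj hjF]
    cases ksm χ (F ||| 2 ^ c) c <;> cases t.testBit j <;> cases t.testBit c <;> cases τ <;> rfl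
  · have hjc : c = j := by
      rw [testBit_or_pow] at hA
      have : F.testBit j = false := by simpa using hjF
      rw [this, Bool.false_or, decide_eq_true_iff] at hA
      exact hA
    subst hjc
    rw [hs]
    cases ksm χ (F ||| 2 ^ c) c <;> cases t.testBit c <;> cases τ <;> rfl

/-- The cells around the simplex are topes. -/
theorem sub (hc : ∀ A, pc A = 5 → ∀ (ε : Bool) (s : ℕ),
    (∀ j < 12, A.testBit j = false → s.testBit j = xor (csm χ A j) ε) → T s = true)
    (hF : pc F = 6) (hS : Simp χ F t) {s i : ℕ} {τ : Bool} (hi : i < 12)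
    (hiF : F.testBit i = true) (hR : ∀ j < 12, F.testBit j = false →
      s.testBit j = xor (t.testBit j) τ) (hs : s.testBit i = xor (t.testBit i) τ) :
    T s = true := by
  have h5 : pc (F ^^^ 2 ^ i) = 5 := by
    have := pc_xor hi hiF
    omega
  refine hc (F ^^^ 2 ^ i) h5 (xor (csm χ (F ^^^ 2 ^ i) i) (xor (t.testBit i) τ)) s
    fun j hj hA => ?_
  by_cases hji : i = j
  · subst hji
    rw [hs]
    cases csm χ (F ^^^ 2 ^ i) i <;> cases t.testBit i <;> cases τ <;> rfl
  · rw [testBit_xor_pow, decide_eq_false hji, Bool.xor_false] at hA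
    rw [hR j hj hA, vtx hS hi hiF hj hA]
    cases csm χ (F ^^^ 2 ^ i) i <;> cases t.testBit i <;> cases t.testBit j <;> cases τ <;> rfl

/-! ### The mutation -/

/-- The signs after the mutation, masks below 4096. -/
def muY (F : ℕ) (χ : ℕ → Bool) (A : ℕ) : Bool := xor (χ A) (decide (A = F))

/-- The signs after the mutation. -/
def muX (F : ℕ) (χ : ℕ → Bool) (A : ℕ) : Bool := muY F χ (A % 4096)

/-- The topes after the mutation. -/
def muT (F t : ℕ) (T : ℕ → Bool) (s : ℕ) : Bool :=
  if s % 4096 = t ∨ s % 4096 = 4095 ^^^ t then false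
  else if s % 4096 = t ^^^ F ∨ s % 4096 = 4095 ^^^ (t ^^^ F) then true else T (s % 4096)

theorem fsm_comm (χ : ℕ → Bool) (A x y : ℕ) : fsm χ A x y = fsm χ A y x := by
  rw [fsm, fsm, Nat.or_assoc, Nat.or_comm (2 ^ x), ← Nat.or_assoc]
  cases ipm A x <;> cases ipm A y <;> rfl

theorem fsm_muY {A x y : ℕ} (h : A ||| 2 ^ x ||| 2 ^ y ≠ F) : fsm (muY F χ) A x y = fsm χ A x y := by
  rw [fsm, fsm, muY, decide_eq_false h, Bool.xor_false]

theorem csm_muY (A j : ℕ) : csm (muY F χ) A j = xor (csm χ A j) (decide (A ||| 2 ^ j = F)) := by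
  rw [csm, csm, muY]
  cases χ (A ||| 2 ^ j) <;> cases decide (A ||| 2 ^ j = F) <;> cases ipm A j <;> rfl

theorem ksm_muY (A j : ℕ) : ksm (muY F χ) A j = xor (ksm χ A j) (decide (A ^^^ 2 ^ j = F)) := by
  rw [ksm, ksm, muY]
  cases χ (A ^^^ 2 ^ j) <;> cases decide (A ^^^ 2 ^ j = F) <;> cases ipm A j <;> rfl

/-- The sign with one element inside and one outside of the simplex. -/
theorem exch (hS : Simp χ F t) {A x y z : ℕ} (h : A ||| 2 ^ x ||| 2 ^ y = F) (hxy : x ≠ y)
    (hx : A.testBit x = false) (hy : A.testBit y = false) (hz : A.testBit z = false)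
    (hzx : z ≠ x) (hzy : z ≠ y) (hx12 : x < 12) (hy12 : y < 12) (hz12 : z < 12) :
    fsm (muY F χ) A x z = xor (xor (xor (csm χ (F ^^^ 2 ^ y) y) (t.testBit y)) (ipm A x))
      (xor (t.testBit z) (decide (z < x))) := by
  have hyF : F.testBit y = true := by
    rw [← h, testBit_or_pow, decide_eq_true rfl, Bool.or_true]
  have hzF : F.testBit z = false := by
    rw [← h, testBit_or_pow, testBit_or_pow, hz, decide_eq_false (Ne.symm hzx),
      decide_eq_false (Ne.symm hzy)]
    rfl
  have hB : F ^^^ 2 ^ y = A ||| 2 ^ x := by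
    rw [← h]
    apply or_xor_self
    rw [testBit_or_pow, hy, decide_eq_false hxy]
    rfl
  have hne : A ||| 2 ^ x ||| 2 ^ z ≠ F := fun h0 => by
    have : F.testBit z = true := by
      rw [← h0, testBit_or_pow, decide_eq_true rfl, Bool.or_true]
    rw [hzF] at this
    exact Bool.noConfusion this
  have h1 := vtx hS hy12 hyF hz12 hzF
  rw [fsm_muY hne, fsm]
  rw [hB] at h1 ⊢
  rw [csm, ipm_or _ hx12 hx] at h1
  revert h1
  cases χ (A ||| 2 ^ x ||| 2 ^ z) <;> cases ipm A z <;> cases decide (z < x) <;>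
    cases csm χ (A ||| 2 ^ x) y <;> cases t.testBit y <;> cases t.testBit z <;> cases ipm A x <;>
    decide

theorem or_comm3 {A x y : ℕ} (h : A ||| 2 ^ x ||| 2 ^ y = F) : A ||| 2 ^ y ||| 2 ^ x = F := by
  rw [← h, Nat.or_assoc, Nat.or_comm (2 ^ y), ← Nat.or_assoc]

theorem dl {x y : ℕ} (h : x < y) : decide (x < y) = true := decide_eq_true h

theorem dg {x y : ℕ} (h : y < x) : decide (x < y) = false := decide_eq_false (by omega)

theorem q1 : ∀ p k l u v : Bool,
    ¬ (p = !((xor k (xor u false)) == (xor l (xor v false))) ∧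
      p = ((xor k (xor v false)) == (xor l (xor u false)))) := by decide

theorem q6 : ∀ p k l u v : Bool,
    ¬ (p = !((xor k (xor u true)) == (xor l (xor v true))) ∧
      p = ((xor l (xor u true)) == (xor k (xor v true)))) := by decide

/-- The three term relations survive. -/
theorem gp_muY (hS : Simp χ F t) {A a b c d : ℕ}
    (hgp : ¬ ((fsm χ A a b == fsm χ A c d) = !(fsm χ A a c == fsm χ A b d) ∧
      (fsm χ A a b == fsm χ A c d) = (fsm χ A a d == fsm χ A b c)))
    (hab : a < b) (hbc : b < c) (hcd : c < d) (hd12 : d < 12)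
    (ha : A.testBit a = false) (hb : A.testBit b = false) (hc : A.testBit c = false)
    (hd : A.testBit d = false) :
    ¬ ((fsm (muY F χ) A a b == fsm (muY F χ) A c d) =
        !(fsm (muY F χ) A a c == fsm (muY F χ) A b d) ∧
      (fsm (muY F χ) A a b == fsm (muY F χ) A c d) =
        (fsm (muY F χ) A a d == fsm (muY F χ) A b c)) := by
  have hac : a < c := by omega
  have had : a < d := by omega
  have hbd : b < d := by omega
  by_cases e1 : A ||| 2 ^ a ||| 2 ^ b = F
  · have f1 := or_comm3 e1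
    rw [exch hS e1 (by omega) ha hb hc (by omega) (by omega) (by omega) (by omega) (by omega),
      exch hS e1 (by omega) ha hb hd (by omega) (by omega) (by omega) (by omega) (by omega),
      exch hS f1 (by omega) hb ha hc (by omega) (by omega) (by omega) (by omega) (by omega),
      exch hS f1 (by omega) hb ha hd (by omega) (by omega) (by omega) (by omega) (by omega),
      dg hac, dg had, dg hbc, dg hbd]
    exact q1 _ _ _ _ _
  by_cases e2 : A ||| 2 ^ a ||| 2 ^ c = F
  · have f1 := or_comm3 e2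
    rw [exch hS e2 (by omega) ha hc hb (by omega) (by omega) (by omega) (by omega) (by omega),
      exch hS e2 (by omega) ha hc hd (by omega) (by omega) (by omega) (by omega) (by omega),
      exch hS f1 (by omega) hc ha hd (by omega) (by omega) (by omega) (by omega) (by omega),
      fsm_comm _ A b c,
      exch hS f1 (by omega) hc ha hb (by omega) (by omega) (by omega) (by omega) (by omega),
      dg hab, dg had, dg hcd, dl hbc]
    generalize xor (xor (csm χ (F ^^^ 2 ^ c) c) (t.testBit c)) (ipm A a) = k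
    generalize xor (xor (csm χ (F ^^^ 2 ^ a) a) (t.testBit a)) (ipm A c) = l
    cases k <;> cases l <;> cases t.testBit b <;> cases t.testBit d <;> simp
  by_cases e3 : A ||| 2 ^ a ||| 2 ^ d = F
  · have f1 := or_comm3 e3
    rw [exch hS e3 (by omega) ha hd hb (by omega) (by omega) (by omega) (by omega) (by omega),
      exch hS e3 (by omega) ha hd hc (by omega) (by omega) (by omega) (by omega) (by omega),
      fsm_comm _ A c d, fsm_comm _ A b d,
      exch hS f1 (by omega) hd ha hb (by omega) (by omega) (by omega) (by omega) (by omega),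
      exch hS f1 (by omega) hd ha hc (by omega) (by omega) (by omega) (by omega) (by omega),
      dg hab, dg hac, dl hbd, dl hcd]
    generalize xor (xor (csm χ (F ^^^ 2 ^ d) d) (t.testBit d)) (ipm A a) = k
    generalize xor (xor (csm χ (F ^^^ 2 ^ a) a) (t.testBit a)) (ipm A d) = l
    cases k <;> cases l <;> cases t.testBit b <;> cases t.testBit c <;> simp
  by_cases e4 : A ||| 2 ^ b ||| 2 ^ c = F
  · have f1 := or_comm3 e4
    rw [fsm_comm _ A a b, fsm_comm _ A a c,
      exch hS e4 (by omega) hb hc ha (by omega) (by omega) (by omega) (by omega) (by omega),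
      exch hS e4 (by omega) hb hc hd (by omega) (by omega) (by omega) (by omega) (by omega),
      exch hS f1 (by omega) hc hb ha (by omega) (by omega) (by omega) (by omega) (by omega),
      exch hS f1 (by omega) hc hb hd (by omega) (by omega) (by omega) (by omega) (by omega),
      dl hab, dl hac, dg hbd, dg hcd]
    generalize xor (xor (csm χ (F ^^^ 2 ^ c) c) (t.testBit c)) (ipm A b) = k
    generalize xor (xor (csm χ (F ^^^ 2 ^ b) b) (t.testBit b)) (ipm A c) = l
    cases k <;> cases l <;> cases t.testBit a <;> cases t.testBit d <;> simp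
  by_cases e5 : A ||| 2 ^ b ||| 2 ^ d = F
  · have f1 := or_comm3 e5
    rw [fsm_comm _ A a b, fsm_comm _ A c d, fsm_comm _ A a d,
      exch hS e5 (by omega) hb hd ha (by omega) (by omega) (by omega) (by omega) (by omega),
      exch hS e5 (by omega) hb hd hc (by omega) (by omega) (by omega) (by omega) (by omega),
      exch hS f1 (by omega) hd hb ha (by omega) (by omega) (by omega) (by omega) (by omega),
      exch hS f1 (by omega) hd hb hc (by omega) (by omega) (by omega) (by omega) (by omega),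
      dl hab, dg hbc, dl had, dl hcd]
    generalize xor (xor (csm χ (F ^^^ 2 ^ d) d) (t.testBit d)) (ipm A b) = k
    generalize xor (xor (csm χ (F ^^^ 2 ^ b) b) (t.testBit b)) (ipm A d) = l
    cases k <;> cases l <;> cases t.testBit a <;> cases t.testBit c <;> simp
  by_cases e6 : A ||| 2 ^ c ||| 2 ^ d = F
  · have f1 := or_comm3 e6
    rw [fsm_comm _ A a c, fsm_comm _ A b d, fsm_comm _ A a d, fsm_comm _ A b c,
      exch hS e6 (by omega) hc hd ha (by omega) (by omega) (by omega) (by omega) (by omega),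
      exch hS e6 (by omega) hc hd hb (by omega) (by omega) (by omega) (by omega) (by omega),
      exch hS f1 (by omega) hd hc ha (by omega) (by omega) (by omega) (by omega) (by omega),
      exch hS f1 (by omega) hd hc hb (by omega) (by omega) (by omega) (by omega) (by omega),
      dl hac, dl hbc, dl had, dl hbd]
    generalize xor (xor (csm χ (F ^^^ 2 ^ d) d) (t.testBit d)) (ipm A c) = k
    generalize xor (xor (csm χ (F ^^^ 2 ^ c) c) (t.testBit c)) (ipm A d) = l
    exact q6 _ k l _ _
  rw [fsm_muY e1, fsm_muY e2, fsm_muY e3, fsm_muY e4, fsm_muY e5, fsm_muY e6]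
  exact hgp

theorem muT_small {s : ℕ} (hs : s < 4096) : muT F t T s =
    if s = t ∨ s = 4095 ^^^ t then false
    else if s = t ^^^ F ∨ s = 4095 ^^^ (t ^^^ F) then true else T s := by
  rw [muT, Nat.mod_eq_of_lt hs]

variable {s A : ℕ} {ε : Bool}

theorem cc_muY (hc : ∀ A, pc A = 5 → ∀ (ε : Bool) (s : ℕ),
    (∀ j < 12, A.testBit j = false → s.testBit j = xor (csm χ A j) ε) → T s = true)
    (hk : ∀ A, pc A = 7 → ∀ (ε : Bool) (s : ℕ),
    (∀ j < 12, A.testBit j = true → s.testBit j = xor (ksm χ A j) ε) → T s = false)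
    (hF : pc F = 6) (hF4 : F < 4096) (ht4 : t < 4096) (hS : Simp χ F t) (hA : pc A = 5)
    (hA4 : A < 4096) (hs4 : s < 4096)
    (h : ∀ j < 12, A.testBit j = false → s.testBit j = xor (csm (muY F χ) A j) ε) :
    muT F t T s = true := by
  rw [muT_small hs4]
  by_cases hsub : ∀ c < 12, A.testBit c = true → F.testBit c = true
  · obtain ⟨i, hi, hiA, hiF, hAF⟩ := exists_or hA4 hF4 (by rw [hA, hF]) hsub
    have hA' : F ^^^ 2 ^ i = A := by
      rw [← hAF]
      exact or_xor_self hiA
    obtain ⟨o, ho, hoF⟩ : ∃ o < 12, F.testBit o = false := by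
      by_contra hcon
      push Not at hcon
      have : ∀ x : Fin 12, x ∈ toSet F := fun x => mem_toSet.2 (by simpa using hcon x x.2)
      have h2 : toSet F = Finset.univ := Finset.eq_univ_iff_forall.2 this
      have h3 := card_toSet F
      rw [h2, hF, Finset.card_univ, Fintype.card_fin] at h3
      omega
    -- the offset
    set τ := xor (xor (csm χ A i) (t.testBit i)) ε with hτ
    have hout : ∀ j < 12, F.testBit j = false → s.testBit j = xor (t.testBit j) τ := by
      intro j hj hjF
      have hjA : A.testBit j = false := by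
        rw [← hA', testBit_xor_pow, hjF, Bool.false_xor]
        apply decide_eq_false
        rintro rfl
        rw [hiF] at hjF
        exact Bool.noConfusion hjF
      have hne : A ||| 2 ^ j ≠ F := fun h0 => by
        have : F.testBit j = true := by
          rw [← h0, testBit_or_pow, decide_eq_true rfl, Bool.or_true]
        rw [hjF] at this
        exact Bool.noConfusion this
      have h1 := vtx hS hi hiF hj hjF
      rw [hA'] at h1
      rw [h j hj hjA, csm_muY, decide_eq_false hne, h1, hτ]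
      cases csm χ A i <;> cases t.testBit i <;> cases t.testBit j <;> cases ε <;> rfl
    have hin : s.testBit i = xor (t.testBit i) (!τ) := by
      rw [h i hi hiA, csm_muY, decide_eq_true hAF, hτ]
      cases csm χ A i <;> cases t.testBit i <;> cases ε <;> rfl
    have n1 : ¬ (s = t ∨ s = 4095 ^^^ t) := fun h0 => by
      obtain ⟨σ, hσ⟩ := of_eq_or h0
      have a1 := hout o ho hoF
      rw [hσ o ho] at a1
      rw [hσ i hi] at hin
      revert a1 hin
      cases t.testBit o <;> cases t.testBit i <;> cases σ <;> cases τ <;> decide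
    rw [if_neg n1]
    by_cases n2 : s = t ^^^ F ∨ s = 4095 ^^^ (t ^^^ F)
    · rw [if_pos n2]
    rw [if_neg n2]
    obtain ⟨k, hk12, hkF, hk1⟩ : ∃ k < 12, F.testBit k = true ∧ s.testBit k = xor (t.testBit k) τ := by
      by_contra hcon
      push Not at hcon
      apply n2
      refine eq_or (τ := τ) hs4 (xor_lt' ht4 hF4) fun j hj => ?_
      rw [Nat.testBit_xor]
      by_cases hjF : F.testBit j = true
      · have := hcon j hj hjF
        rw [hjF]
        revert this
        cases s.testBit j <;> cases t.testBit j <;> cases τ <;> decide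
      · have hjF' : F.testBit j = false := by simpa using hjF
        rw [hjF', Bool.xor_false]
        exact hout j hj hjF'
    exact sub hc hF hS hk12 hkF hout hk1
  · push Not at hsub
    obtain ⟨c, hc12, hcA, hcF⟩ := hsub
    have hcF' : F.testBit c = false := by simpa using hcF
    have hne : ∀ j, A ||| 2 ^ j ≠ F := fun j h0 => by
      have : F.testBit c = true := by
        rw [← h0, testBit_or_pow, hcA, Bool.true_or]
      rw [hcF'] at this
      exact Bool.noConfusion this
    have key : ∀ j < 12, A.testBit j = false → s.testBit j = xor (csm χ A j) ε := by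
      intro j hj hjA
      rw [h j hj hjA, csm_muY, decide_eq_false (hne j), Bool.xor_false]
    have key' : ∀ j < 12, A.testBit j = false → (s ^^^ 2 ^ c).testBit j = xor (csm χ A j) ε := by
      intro j hj hjA
      have hcj : c ≠ j := by rintro rfl; rw [hcA] at hjA; exact Bool.noConfusion hjA
      rw [testBit_xor_pow, decide_eq_false hcj, Bool.xor_false, key j hj hjA]
    have hT := hc A hA _ _ key
    have hT' := hc A hA _ _ key'
    have n1 : ¬ (s = t ∨ s = 4095 ^^^ t) := fun h0 => by
      obtain ⟨σ, hσ⟩ := of_eq_or h0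
      rw [cone (τ := σ) hk hF hS hc12 hcF' (fun j hj hjF => by
        have hcj : c ≠ j := by rintro rfl; rw [hjF] at hcF'; exact Bool.noConfusion hcF'
        rw [testBit_xor_pow, decide_eq_false hcj, Bool.xor_false, hσ j hj]) (by
        rw [testBit_xor_pow, decide_eq_true rfl, hσ c hc12]
        cases t.testBit c <;> cases σ <;> rfl)] at hT'
      exact Bool.noConfusion hT'
    rw [if_neg n1]
    by_cases n2 : s = t ^^^ F ∨ s = 4095 ^^^ (t ^^^ F)
    · rw [if_pos n2]
    · rw [if_neg n2]
      exact hT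

theorem kc_muY (hc : ∀ A, pc A = 5 → ∀ (ε : Bool) (s : ℕ),
    (∀ j < 12, A.testBit j = false → s.testBit j = xor (csm χ A j) ε) → T s = true)
    (hk : ∀ A, pc A = 7 → ∀ (ε : Bool) (s : ℕ),
    (∀ j < 12, A.testBit j = true → s.testBit j = xor (ksm χ A j) ε) → T s = false)
    (hF : pc F = 6) (hF4 : F < 4096) (ht4 : t < 4096) (hS : Simp χ F t) (hA : pc A = 7)
    (hA4 : A < 4096) (hs4 : s < 4096)
    (h : ∀ j < 12, A.testBit j = true → s.testBit j = xor (ksm (muY F χ) A j) ε) :
    muT F t T s = false := by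
  rw [muT_small hs4]
  by_cases n1 : s = t ∨ s = 4095 ^^^ t
  · rw [if_pos n1]
  rw [if_neg n1]
  by_cases hsub : ∀ c < 12, F.testBit c = true → A.testBit c = true
  · obtain ⟨c, hc12, hcF, hcA, hAF⟩ := exists_or hF4 hA4 (by rw [hA, hF]) hsub
    have hA' : A ^^^ 2 ^ c = F := by
      rw [← hAF]
      exact or_xor_self hcF
    set τ := xor (xor (ksm χ A c) (t.testBit c)) (!ε) with hτ
    have hin : ∀ j < 12, F.testBit j = true → s.testBit j = xor (t.testBit j) τ := by
      intro j hj hjF
      have hne : A ^^^ 2 ^ j ≠ F := fun h0 => by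
        have : F.testBit j = false := by
          rw [← h0, testBit_xor_pow, decide_eq_true rfl, hsub j hj hjF]
          rfl
        rw [hjF] at this
        exact Bool.noConfusion this
      have h1 := kvx hS hj hjF hc12 hcF
      rw [hAF] at h1
      rw [h j hj (hsub j hj hjF), ksm_muY, decide_eq_false hne, h1, hτ]
      cases ksm χ A c <;> cases t.testBit c <;> cases t.testBit j <;> cases ε <;> rfl
    have hcs : s.testBit c = xor (t.testBit c) τ := by
      rw [h c hc12 hcA, ksm_muY, decide_eq_true hA', hτ]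
      cases ksm χ A c <;> cases t.testBit c <;> cases ε <;> rfl
    obtain ⟨o, ho, hoF⟩ : ∃ o < 12, F.testBit o = true := by
      by_contra hcon
      push Not at hcon
      have : ∀ x : Fin 12, x ∉ toSet F := fun x hx => hcon x x.2 (mem_toSet.1 hx)
      have h2 : toSet F = ∅ := Finset.eq_empty_iff_forall_notMem.2 this
      have h3 := card_toSet F
      rw [h2, hF, Finset.card_empty] at h3
      omega
    have n2 : ¬ (s = t ^^^ F ∨ s = 4095 ^^^ (t ^^^ F)) := fun h0 => by
      obtain ⟨σ, hσ⟩ := of_eq_or h0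
      have a1 := hin o ho hoF
      rw [hσ o ho, Nat.testBit_xor, hoF] at a1
      rw [hσ c hc12, Nat.testBit_xor, hcF] at hcs
      revert a1 hcs
      cases t.testBit o <;> cases t.testBit c <;> cases σ <;> cases τ <;> decide
    rw [if_neg n2]
    obtain ⟨k, hk12, hkF, hk1⟩ : ∃ k < 12, F.testBit k = false ∧
        s.testBit k = xor (t.testBit k) (!τ) := by
      by_contra hcon
      push Not at hcon
      apply n1
      refine eq_or (τ := τ) hs4 ht4 fun j hj => ?_
      by_cases hjF : F.testBit j = true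
      · exact hin j hj hjF
      · have := hcon j hj (by simpa using hjF)
        revert this
        cases s.testBit j <;> cases t.testBit j <;> cases τ <;> decide
    exact cone hk hF hS hk12 hkF hin hk1
  · push Not at hsub
    obtain ⟨r, hr12, hrF, hrA⟩ := hsub
    have hrA' : A.testBit r = false := by simpa using hrA
    have hne : ∀ j, A.testBit j = true → A ^^^ 2 ^ j ≠ F := fun j hjA h0 => by
      have hjr : j ≠ r := by rintro rfl; rw [hjA] at hrA'; exact Bool.noConfusion hrA'
      have : F.testBit r = false := by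
        rw [← h0, testBit_xor_pow, hrA', decide_eq_false hjr]
        rfl
      rw [hrF] at this
      exact Bool.noConfusion this
    have key : ∀ j < 12, A.testBit j = true → s.testBit j = xor (ksm χ A j) ε := by
      intro j hj hjA
      rw [h j hj hjA, ksm_muY, decide_eq_false (hne j hjA), Bool.xor_false]
    have key' : ∀ j < 12, A.testBit j = true → (s ^^^ 2 ^ r).testBit j = xor (ksm χ A j) ε := by
      intro j hj hjA
      have hrj : r ≠ j := by rintro rfl; rw [hrA'] at hjA; exact Bool.noConfusion hjA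
      rw [testBit_xor_pow, decide_eq_false hrj, Bool.xor_false, key j hj hjA]
    have hT := hk A hA _ _ key
    have hT' := hk A hA _ _ key'
    have n2 : ¬ (s = t ^^^ F ∨ s = 4095 ^^^ (t ^^^ F)) := fun h0 => by
      obtain ⟨σ, hσ⟩ := of_eq_or h0
      rw [sub (τ := σ) hc hF hS hr12 hrF (fun j hj hjF => by
        have hrj : r ≠ j := by rintro rfl; rw [hrF] at hjF; exact Bool.noConfusion hjF
        rw [testBit_xor_pow, decide_eq_false hrj, Bool.xor_false, hσ j hj, Nat.testBit_xor, hjF,
          Bool.xor_false]) (by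
        rw [testBit_xor_pow, decide_eq_true rfl, hσ r hr12, Nat.testBit_xor, hrF]
        cases t.testBit r <;> cases σ <;> rfl)] at hT'
      exact Bool.noConfusion hT'
    rw [if_neg n2]
    exact hT

/-! ### Antipodes and complete cells -/

theorem compl_iff {a b : ℕ} : 4095 ^^^ a = b ↔ a = 4095 ^^^ b := by
  constructor
  · rintro rfl
    rw [← Nat.xor_assoc, Nat.xor_self, Nat.zero_xor]
  · rintro rfl
    rw [← Nat.xor_assoc, Nat.xor_self, Nat.zero_xor]

theorem anti_muT (ha : ∀ s, T (4095 ^^^ s) = T s) (s : ℕ) :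
    muT F t T (4095 ^^^ s) = muT F t T s := by
  have h1 : ∀ u v : ℕ, (4095 ^^^ u = v ∨ 4095 ^^^ u = 4095 ^^^ v) ↔ (u = v ∨ u = 4095 ^^^ v) := by
    intro u v
    rw [compl_iff, compl_iff, ← Nat.xor_assoc, Nat.xor_self, Nat.zero_xor, or_comm]
  rw [muT, muT, mod_compl]
  simp only [h1, ha]

/-- The table `tab'` contains `tab` and the cells around the new simplex. -/
def chkM (tab tab' F t : ℕ) : Bool := (List.range 4096).all fun s =>
  tab'.testBit (tps s) || (!(tab.testBit (tps s)) && (List.range 12).all fun i =>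
    !(F.testBit i) || (!(Nat.beq s (t ^^^ F ^^^ 2 ^ i)) && !(Nat.beq s (4095 ^^^ (t ^^^ F ^^^ 2 ^ i)))))

theorem chkM_spec {tab tab' F t : ℕ} (h : chkM tab tab' F t = true) {s : ℕ} (hs : s < 4096)
    (h' : tab'.testBit (tps s) = false) : tab.testBit (tps s) = false ∧ ∀ i < 12,
      F.testBit i = true → s ≠ t ^^^ F ^^^ 2 ^ i ∧ s ≠ 4095 ^^^ (t ^^^ F ^^^ 2 ^ i) := by
  have h1 := List.all_eq_true.1 h s (List.mem_range.2 hs)
  rw [h', Bool.false_or, Bool.and_eq_true] at h1
  refine ⟨by simpa using h1.1, fun i hi hiF => ?_⟩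
  have h2 := List.all_eq_true.1 h1.2 i (List.mem_range.2 hi)
  rw [hiF, Bool.not_true, Bool.false_or, Bool.and_eq_true] at h2
  constructor
  · rintro rfl
    rw [Nat.beq_refl] at h2
    exact Bool.noConfusion h2.1
  · rintro rfl
    rw [Nat.beq_refl] at h2
    exact Bool.noConfusion h2.2

theorem two_out (hF : pc F = 6) : ∃ k c, k < 12 ∧ c < 12 ∧ k ≠ c ∧ F.testBit k = false ∧
    F.testBit c = false := by
  have h1 : ((toSet F)ᶜ).card = 6 := by
    rw [Finset.card_compl, card_toSet, hF, Fintype.card_fin]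
  obtain ⟨k, hk, c, hc, hne⟩ := Finset.one_lt_card.1 (by rw [h1]; norm_num : 1 < ((toSet F)ᶜ).card)
  rw [Finset.mem_compl, mem_toSet] at hk hc
  exact ⟨k, c, k.2, c.2, fun h => hne (Fin.ext h), by simpa using hk, by simpa using hc⟩

theorem bad_muT {tab tab' : ℕ} (hM : XModel tab χ T) (hF : pc F = 6) (hF4 : F < 4096)
    (ht4 : t < 4096) (hS : Simp χ F t) (hX : chkM tab tab' F t = true) (hs4 : s < 4096)
    (h6 : tab'.testBit (tps s) = false) (hs : muT F t T s = true) :
    ∃ i < 12, muT F t T (s ^^^ 2 ^ i) = false := by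
  obtain ⟨k, c, hk12, hc12, hkc, hkF, hcF⟩ := two_out hF
  rw [muT_small hs4] at hs
  by_cases n1 : s = t ∨ s = 4095 ^^^ t
  · rw [if_pos n1] at hs
    exact Bool.noConfusion hs
  rw [if_neg n1] at hs
  by_cases n2 : s = t ^^^ F ∨ s = 4095 ^^^ (t ^^^ F)
  · obtain ⟨σ, hσ⟩ := of_eq_or n2
    refine ⟨k, hk12, ?_⟩
    have hT : T (s ^^^ 2 ^ k) = false := by
      refine cone (τ := !σ) hM.kc hF hS hc12 hcF (fun j hj hjF => ?_) ?_
      · have hkj : k ≠ j := by rintro rfl; rw [hjF] at hkF; exact Bool.noConfusion hkF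
        rw [testBit_xor_pow, decide_eq_false hkj, Bool.xor_false, hσ j hj, Nat.testBit_xor, hjF]
        cases t.testBit j <;> cases σ <;> rfl
      · rw [testBit_xor_pow, decide_eq_false hkc, Bool.xor_false, hσ c hc12, Nat.testBit_xor, hcF,
          Bool.not_not, Bool.xor_false]
    rw [muT_small (xor_lt hs4 hk12)]
    by_cases m1 : s ^^^ 2 ^ k = t ∨ s ^^^ 2 ^ k = 4095 ^^^ t
    · rw [if_pos m1]
    rw [if_neg m1]
    have m2 : ¬ (s ^^^ 2 ^ k = t ^^^ F ∨ s ^^^ 2 ^ k = 4095 ^^^ (t ^^^ F)) := fun h0 => by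
      obtain ⟨σ', hσ'⟩ := of_eq_or h0
      have a1 := hσ' k hk12
      have a2 := hσ' c hc12
      rw [testBit_xor_pow, decide_eq_true rfl, hσ k hk12] at a1
      rw [testBit_xor_pow, decide_eq_false hkc, hσ c hc12] at a2
      revert a1 a2
      cases (t ^^^ F).testBit k <;> cases (t ^^^ F).testBit c <;> cases σ <;> cases σ' <;> decide
    rw [if_neg m2]
    exact hT
  rw [if_neg n2] at hs
  obtain ⟨ht, hex⟩ := chkM_spec hX hs4 h6
  obtain ⟨i, hi, hTi⟩ := hM.bad s hs4 ht hs
  refine ⟨i, hi, ?_⟩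
  rw [muT_small (xor_lt hs4 hi)]
  by_cases m1 : s ^^^ 2 ^ i = t ∨ s ^^^ 2 ^ i = 4095 ^^^ t
  · rw [if_pos m1]
  rw [if_neg m1]
  have m2 : ¬ (s ^^^ 2 ^ i = t ^^^ F ∨ s ^^^ 2 ^ i = 4095 ^^^ (t ^^^ F)) := fun h0 => by
    have hback : s = (s ^^^ 2 ^ i) ^^^ 2 ^ i := by
      rw [Nat.xor_assoc, Nat.xor_self, Nat.xor_zero]
    by_cases hiF : F.testBit i = true
    · obtain ⟨e1, e2⟩ := hex i hi hiF
      rcases h0 with h0 | h0
      · exact e1 (by rw [hback, h0])
      · exact e2 (by rw [hback, h0, Nat.xor_assoc])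
    · have hiF' : F.testBit i = false := by simpa using hiF
      obtain ⟨σ, hσ⟩ := of_eq_or h0
      obtain ⟨c', hc'12, hc'F, hc'i⟩ : ∃ c', c' < 12 ∧ F.testBit c' = false ∧ c' ≠ i := by
        by_cases hki : k = i
        · exact ⟨c, hc12, hcF, fun h => hkc (hki.trans h.symm)⟩
        · exact ⟨k, hk12, hkF, hki⟩
      have hT : T s = false := by
        refine cone (τ := !σ) hM.kc hF hS hc'12 hc'F (fun j hj hjF => ?_) ?_
        · have hij : i ≠ j := by rintro rfl; rw [hjF] at hiF'; exact Bool.noConfusion hiF'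
          have a1 := hσ j hj
          rw [testBit_xor_pow, decide_eq_false hij, Bool.xor_false, Nat.testBit_xor, hjF] at a1
          rw [a1]
          cases t.testBit j <;> cases σ <;> rfl
        · have a1 := hσ c' hc'12
          rw [testBit_xor_pow, decide_eq_false (Ne.symm hc'i), Bool.xor_false, Nat.testBit_xor,
            hc'F, Bool.xor_false] at a1
          rw [a1, Bool.not_not]
      rw [hT] at hs
      exact Bool.noConfusion hs
  rw [if_neg m2]
  exact hTi

/-! ### High bits -/

theorem csm_muX (A : ℕ) {j : ℕ} (hj : j < 12) :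
    csm (muX F χ) A j = csm (muY F χ) (A % 4096) j := by
  rw [csm, csm, muX, or_mod hj, ipm_mod]

theorem ksm_muX (A : ℕ) {j : ℕ} (hj : j < 12) :
    ksm (muX F χ) A j = ksm (muY F χ) (A % 4096) j := by
  rw [ksm, ksm, muX, xor_mod hj, ipm_mod]

theorem fsm_muX (A : ℕ) {x y : ℕ} (hx : x < 12) (hy : y < 12) :
    fsm (muX F χ) A x y = fsm (muY F χ) (A % 4096) x y := by
  rw [fsm, fsm, muX, or_mod hy, or_mod hx, ipm_mod, ipm_mod]

theorem muT_mod (s : ℕ) : muT F t T (s % 4096) = muT F t T s := by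
  rw [muT, muT, Nat.mod_mod]

/-- **The mutation of a simplicial cell.** -/
theorem xmodel_muX {tab tab' : ℕ} (hM : XModel tab χ T) (hF : pc F = 6) (hF4 : F < 4096)
    (ht4 : t < 4096) (hS : Simp χ F t) (hX : chkM tab tab' F t = true) :
    XModel tab' (muX F χ) (muT F t T) where
  gp A a b c d hA hab hbc hcd hd ha hb hc hd' := by
    have h4 : pc (A % 4096) = 4 := by rw [pc_mod, hA]
    rw [← tb_mod A (by omega)] at ha hb hc hd'
    rw [fsm_muX A (by omega) (by omega), fsm_muX A (by omega) (by omega),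
      fsm_muX A (by omega) (by omega), fsm_muX A (by omega) (by omega),
      fsm_muX A (by omega) (by omega), fsm_muX A (by omega) (by omega)]
    exact gp_muY hS (hM.gp _ _ _ _ _ h4 hab hbc hcd hd ha hb hc hd') hab hbc hcd hd ha hb hc hd'
  cc A hA ε s h := by
    rw [← muT_mod]
    refine cc_muY (ε := ε) (A := A % 4096) hM.cc hM.kc hF hF4 ht4 hS (by rw [pc_mod, hA])
      (Nat.mod_lt _ (by norm_num)) (Nat.mod_lt _ (by norm_num)) fun j hj hjA => ?_
    rw [tb_mod _ hj] at hjA ⊢
    rw [h j hj hjA, csm_muX A hj]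
  kc A hA ε s h := by
    rw [← muT_mod]
    refine kc_muY (ε := ε) (A := A % 4096) hM.cc hM.kc hF hF4 ht4 hS (by rw [pc_mod, hA])
      (Nat.mod_lt _ (by norm_num)) (Nat.mod_lt _ (by norm_num)) fun j hj hjA => ?_
    rw [tb_mod _ hj] at hjA ⊢
    rw [h j hj hjA, ksm_muX A hj]
  anti s := anti_muT hM.anti s
  bad s hs4 h6 hs := bad_muT hM hF hF4 ht4 hS hX hs4 h6 hs

/-- The sign `χ` at other places. -/
theorem muX_ne {A : ℕ} (hA : A < 4096) (h : A ≠ F) : muX F χ A = χ A := by
  rw [muX, muY, Nat.mod_eq_of_lt hA, decide_eq_false h, Bool.xor_false]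

theorem muX_self (hF : F < 4096) : muX F χ F = !(χ F) := by
  rw [muX, muY, Nat.mod_eq_of_lt hF, decide_eq_true rfl, Bool.xor_true]

/-- Another simplicial cell is not touched. -/
theorem simp_muX {G u : ℕ} (hS : Simp χ G u) (hG4 : G < 4096) (hG : G ≠ F)
    (h : ∀ b < 12, ∀ k < 12, G.testBit b = true → G.testBit k = false →
      (G ^^^ 2 ^ b) ||| 2 ^ k ≠ F) : Simp (muX F χ) G u := by
  intro b hb hbG k hk hkG
  have hlt : G ^^^ 2 ^ b < 4096 := xor_lt hG4 hb
  rw [csm_muX _ hb, csm_muX _ hk, Nat.mod_eq_of_lt hlt, csm_muY, csm_muY, xor_or_self hbG,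
    decide_eq_false hG, decide_eq_false (h b hb k hk hbG hkG), Bool.xor_false, Bool.xor_false]
  exact hS b hb hbG k hk hkG

/-! ### Reorientation -/

/-- Parity of the common bits. -/
def prr (r A : ℕ) : Bool := xorr 12 fun i => A.testBit i && r.testBit i

theorem prr_or {r A x : ℕ} (hx : x < 12) (h : A.testBit x = false) :
    prr r (A ||| 2 ^ x) = xor (prr r A) (r.testBit x) := by
  refine xorr_one hx (fun i _ hi => ?_) ?_
  · rw [testBit_or_pow, decide_eq_false (Ne.symm hi), Bool.or_false]
  · rw [testBit_or_pow, h, decide_eq_true rfl]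
    cases r.testBit x <;> rfl

theorem prr_xor {r A x : ℕ} (hx : x < 12) :
    prr r (A ^^^ 2 ^ x) = xor (prr r A) (r.testBit x) := by
  refine xorr_one hx (fun i _ hi => ?_) ?_
  · rw [testBit_xor_pow, decide_eq_false (Ne.symm hi), Bool.xor_false]
  · rw [testBit_xor_pow, decide_eq_true rfl]
    cases A.testBit x <;> cases r.testBit x <;> rfl

/-- The signs after a reorientation, masks below 4096. -/
def reY (r : ℕ) (b : Bool) (χ : ℕ → Bool) (A : ℕ) : Bool := xor (χ A) (xor (prr r A) b)

/-- The signs after a reorientation. -/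
def reX (r : ℕ) (b : Bool) (χ : ℕ → Bool) (A : ℕ) : Bool := reY r b χ (A % 4096)

/-- The topes after a reorientation. -/
def reT (r : ℕ) (T : ℕ → Bool) (s : ℕ) : Bool := T (s % 4096 ^^^ r)

variable {r : ℕ} {b : Bool}

theorem fsm_reY {A x y : ℕ} (hx : x < 12) (hy : y < 12) (hxA : A.testBit x = false)
    (hyA : A.testBit y = false) (hxy : x ≠ y) : fsm (reY r b χ) A x y =
      xor (fsm χ A x y) (xor b (xor (prr r A) (xor (r.testBit x) (r.testBit y)))) := by
  have h : (A ||| 2 ^ x).testBit y = false := by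
    rw [testBit_or_pow, hyA, decide_eq_false hxy]
    rfl
  rw [fsm, fsm, reY, prr_or hy h, prr_or hx hxA]
  cases χ (A ||| 2 ^ x ||| 2 ^ y) <;> cases b <;> cases prr r A <;> cases r.testBit x <;>
    cases r.testBit y <;> cases ipm A x <;> cases ipm A y <;> rfl

theorem csm_reY {A j : ℕ} (hj : j < 12) (hjA : A.testBit j = false) :
    csm (reY r b χ) A j = xor (csm χ A j) (xor b (xor (prr r A) (r.testBit j))) := by
  rw [csm, csm, reY, prr_or hj hjA]
  cases χ (A ||| 2 ^ j) <;> cases b <;> cases prr r A <;> cases r.testBit j <;>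
    cases ipm A j <;> rfl

theorem ksm_reY {A j : ℕ} (hj : j < 12) :
    ksm (reY r b χ) A j = xor (ksm χ A j) (xor b (xor (prr r A) (r.testBit j))) := by
  rw [ksm, ksm, reY, prr_xor hj]
  cases χ (A ^^^ 2 ^ j) <;> cases b <;> cases prr r A <;> cases r.testBit j <;>
    cases ipm A j <;> rfl

theorem beq2 : ∀ f g a p q x y z w : Bool,
    (xor f (xor a (xor p (xor x y))) == xor g (xor a (xor p (xor z w)))) =
      xor (f == g) (xor (xor x y) (xor z w)) := by
  intro f g a p q x y z w
  cases f <;> cases g <;> cases a <;> cases p <;> cases x <;> cases y <;> cases z <;> cases w <;> rfl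

theorem gp_reY {A a b' c d : ℕ} (hgp : ¬ ((fsm χ A a b' == fsm χ A c d) =
      !(fsm χ A a c == fsm χ A b' d) ∧
      (fsm χ A a b' == fsm χ A c d) = (fsm χ A a d == fsm χ A b' c)))
    (hab : a < b') (hbc : b' < c) (hcd : c < d) (hd12 : d < 12)
    (ha : A.testBit a = false) (hb : A.testBit b' = false) (hc : A.testBit c = false)
    (hd : A.testBit d = false) :
    ¬ ((fsm (reY r b χ) A a b' == fsm (reY r b χ) A c d) =
        !(fsm (reY r b χ) A a c == fsm (reY r b χ) A b' d) ∧
      (fsm (reY r b χ) A a b' == fsm (reY r b χ) A c d) =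
        (fsm (reY r b χ) A a d == fsm (reY r b χ) A b' c)) := by
  rw [fsm_reY (by omega) (by omega) ha hb (by omega), fsm_reY (by omega) (by omega) hc hd (by omega),
    fsm_reY (by omega) (by omega) ha hc (by omega), fsm_reY (by omega) (by omega) hb hd (by omega),
    fsm_reY (by omega) (by omega) ha hd (by omega), fsm_reY (by omega) (by omega) hb hc (by omega),
    beq2 _ _ _ _ false, beq2 _ _ _ _ false, beq2 _ _ _ _ false]
  revert hgp
  generalize (fsm χ A a b' == fsm χ A c d) = X
  generalize (fsm χ A a c == fsm χ A b' d) = Y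
  generalize (fsm χ A a d == fsm χ A b' c) = Z
  cases X <;> cases Y <;> cases Z <;> cases r.testBit a <;> cases r.testBit b' <;>
    cases r.testBit c <;> cases r.testBit d <;> decide

theorem csm_reX (A : ℕ) {j : ℕ} (hj : j < 12) :
    csm (reX r b χ) A j = csm (reY r b χ) (A % 4096) j := by
  rw [csm, csm, reX, or_mod hj, ipm_mod]

theorem ksm_reX (A : ℕ) {j : ℕ} (hj : j < 12) :
    ksm (reX r b χ) A j = ksm (reY r b χ) (A % 4096) j := by
  rw [ksm, ksm, reX, xor_mod hj, ipm_mod]

theorem fsm_reX (A : ℕ) {x y : ℕ} (hx : x < 12) (hy : y < 12) :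
    fsm (reX r b χ) A x y = fsm (reY r b χ) (A % 4096) x y := by
  rw [fsm, fsm, reX, or_mod hy, or_mod hx, ipm_mod, ipm_mod]

/-- The tables agree after the reorientation. -/
def chkR (tab tab' r : ℕ) : Bool := (List.range 4096).all fun s =>
  tab'.testBit (tps s) || !(tab.testBit (tps (s ^^^ r)))

/-- **Reorientation.** -/
theorem xmodel_reX {tab tab' : ℕ} (hM : XModel tab χ T) (hr : r < 4096)
    (hX : chkR tab tab' r = true) : XModel tab' (reX r b χ) (reT r T) where
  gp A a b' c d hA hab hbc hcd hd ha hb hc hd' := by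
    have h4 : pc (A % 4096) = 4 := by rw [pc_mod, hA]
    rw [← tb_mod A (by omega)] at ha hb hc hd'
    rw [fsm_reX A (by omega) (by omega), fsm_reX A (by omega) (by omega),
      fsm_reX A (by omega) (by omega), fsm_reX A (by omega) (by omega),
      fsm_reX A (by omega) (by omega), fsm_reX A (by omega) (by omega)]
    exact gp_reY (hM.gp _ _ _ _ _ h4 hab hbc hcd hd ha hb hc hd') hab hbc hcd hd ha hb hc hd'
  cc A hA ε s h := by
    rw [reT]
    refine hM.cc (A % 4096) (by rw [pc_mod, hA]) (xor ε (xor b (prr r (A % 4096)))) _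
      fun j hj hjA => ?_
    have hjA' := hjA
    rw [tb_mod _ hj] at hjA'
    rw [Nat.testBit_xor, tb_mod _ hj, h j hj hjA', csm_reX A hj, csm_reY hj hjA]
    cases csm χ (A % 4096) j <;> cases b <;> cases prr r (A % 4096) <;> cases r.testBit j <;>
      cases ε <;> rfl
  kc A hA ε s h := by
    rw [reT]
    refine hM.kc (A % 4096) (by rw [pc_mod, hA]) (xor ε (xor b (prr r (A % 4096)))) _
      fun j hj hjA => ?_
    rw [tb_mod _ hj] at hjA
    rw [Nat.testBit_xor, tb_mod _ hj, h j hj hjA, ksm_reX A hj, ksm_reY hj]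
    cases ksm χ (A % 4096) j <;> cases b <;> cases prr r (A % 4096) <;> cases r.testBit j <;>
      cases ε <;> rfl
  anti s := by
    rw [reT, reT, mod_compl, Nat.xor_assoc, hM.anti]
  bad s hs4 h6 hs := by
    have h1 := List.all_eq_true.1 hX s (List.mem_range.2 hs4)
    rw [h6, Bool.false_or] at h1
    have h2 : tab.testBit (tps (s ^^^ r)) = false := by simpa using h1
    rw [reT, Nat.mod_eq_of_lt hs4] at hs
    obtain ⟨i, hi, hT⟩ := hM.bad _ (xor_lt' hs4 hr) h2 hs
    refine ⟨i, hi, ?_⟩
    rw [reT, Nat.mod_eq_of_lt (xor_lt hs4 hi), Nat.xor_assoc, Nat.xor_comm (2 ^ i) r,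
      ← Nat.xor_assoc]
    exact hT

theorem reX_small {A : ℕ} (hA : A < 4096) : reX r b χ A = xor (χ A) (xor (prr r A) b) := by
  rw [reX, reY, Nat.mod_eq_of_lt hA]

/-- Simplicial cells of the reorientation. -/
theorem simp_reX {G u : ℕ} (hS : Simp χ G u) (hG4 : G < 4096) :
    Simp (reX r b χ) G (u ^^^ r) := by
  intro b' hb hbG k hk hkG
  have hlt : G ^^^ 2 ^ b' < 4096 := xor_lt hG4 hb
  have h1 : (G ^^^ 2 ^ b').testBit b' = false := by
    rw [testBit_xor_pow, hbG, decide_eq_true rfl]
    rfl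
  have h2 : (G ^^^ 2 ^ b').testBit k = false := by
    rw [testBit_xor_pow, hkG, Bool.false_xor]
    apply decide_eq_false
    rintro rfl
    rw [hbG] at hkG
    exact Bool.noConfusion hkG
  have h := hS b' hb hbG k hk hkG
  rw [csm_reX _ hb, csm_reX _ hk, Nat.mod_eq_of_lt hlt, csm_reY hb h1, csm_reY hk h2,
    Nat.testBit_xor, Nat.testBit_xor]
  revert h
  cases csm χ (G ^^^ 2 ^ b') b' <;> cases csm χ (G ^^^ 2 ^ b') k <;> cases b <;>
    cases prr r (G ^^^ 2 ^ b') <;> cases r.testBit b' <;> cases r.testBit k <;>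
    cases u.testBit b' <;> cases u.testBit k <;> decide

end Pool.Agent.H89.Z12
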