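import Mathlib
import Pool.Agent.H89.Z12.Mut
import Pool.Agent.H28.Z12.CondX
import Pool.Agent.H72.Z12.StarZ

/-!
The self dual class has two simplicial cells, the chart and its complement. After both mutations
the signs of all minors are reversed, so that excluded patterns of minors come in complementary
pairs (MP_1e71f9_co).
-/

set_option autoImplicit false

namespace Pool.Agent.H89.Z12

open Pool.Agent.H77.Z12 Pool.Agent.H64.Z12 Pool.Agent.H28.Z12 Pool.Agent.H13.Z12
  Pool.Agent.H28.Z12.Cov Pool.Agent.H26.Z12 Pool.Agent.H72.Z12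

/-- The cells around the mutated complement. -/
def tabA : ℕ := 203948981307578684915262366474195935192491623404086165012025919579000886165391467000249776479196659088469698662404140962738434310523087942231520799638665643772175971910549508343573193114351527481577323104033426734460305068754433852266578881095413910423378739179749411372330356455108129465569134203105836414632106423498644189050325394507196430543528812309936126665106991570539240190911402105775206805119530006049876121294686054645233875122089714925140290323231752174439358491751153364944213688760330091824345043018511126075860734960418110783117442695479436994156716094066403837735669334016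

/-- The cells around both mutated simplices. -/
def tabB : ℕ := 203948981307578684915262366474195935192491623404086165012025919579000886165391467000249776479196659088469698662404140962738434310523087942231520799638665643772175971910549508343573193114351527481577323104033426734460305068754433852266578881095413910423378739179749411372330356455108129465569134203105836414632106423498644189050325394507196430543528812309936126665106991570539240190911402105775206805119530006049876121294686054645233875122089714925140290323231752174439358491751153364944213688760330091824345043018511126075860734960418110783117442695479436994156716094073933997052268642304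

/-- The cells around both simplices `4095` and `2016`: the set
`1, 2, 4, 8, 16, 32, 31, 992, 1504, 1760, 1888, 1952`. -/
def tabD : ℕ := 407897962615157369830524732948391870384983246808172330024051839158001772330782934000499552958393318176939397324808281925476868621046175884463041599277331287544351943821099016687146386228703054963154646208066853468920610137508867704533157762190827820846757478359498822744660712910216258931138268406211672829264212846997288378100650789014392861087057624619872253330213983141078480381822804211550413610239060012099752242589372109290467750244179429850280580646463504348878716983502306729888427377520660183648690086037022252151721469920836221566234885390958873988313432188132807675469191250198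

variable {χ T : ℕ → Bool}

theorem toX {D : ℕ} (h : XModel D χ T) : Pool.Agent.H28.Z12.X.XModel D χ T where
  gp := h.gp
  cc := h.cc
  kc := h.kc
  anti := h.anti
  bad s hs h0 h1 := h.bad s (by omega) (by rw [tps, if_pos hs]; exact h0) h1

/-- The simplex of the mutation. -/
theorem simp_self {F t : ℕ} (hS : Simp χ F t) (hF4 : F < 4096) :
    Simp (muX F χ) F (t ^^^ F) := by
  intro b hb hbF k hk hkF
  have hlt : F ^^^ 2 ^ b < 4096 := xor_lt hF4 hb
  have hne : (F ^^^ 2 ^ b) ||| 2 ^ k ≠ F := fun h0 => by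
    have : F.testBit k = true := by rw [← h0, testBit_or_pow, decide_eq_true rfl, Bool.or_true]
    rw [hkF] at this
    exact Bool.noConfusion this
  have h := hS b hb hbF k hk hkF
  rw [csm_muX _ hb, csm_muX _ hk, Nat.mod_eq_of_lt hlt, csm_muY, csm_muY, xor_or_self hbF,
    decide_eq_true rfl, decide_eq_false hne, Bool.xor_false, Bool.xor_true, Nat.testBit_xor,
    Nat.testBit_xor, hbF, hkF, Bool.xor_true, Bool.xor_false]
  revert h
  cases csm χ (F ^^^ 2 ^ b) b <;> cases csm χ (F ^^^ 2 ^ b) k <;> cases t.testBit b <;>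
    cases t.testBit k <;> decide

theorem comp_facts : ∀ k j : Fin 6, (2 ^ 37 - 1 : ℕ).testBit (6 * (k : ℕ) + j) = true ∧
    (wS + 2 ^ 36).testBit (6 * (k : ℕ) + j) =
      !(xor ((2016 : ℕ).testBit (6 + (k : ℕ))) ((2016 : ℕ).testBit j)) := by decide +kernel

theorem comp_bits : (∀ b : Fin 12, (4032 : ℕ).testBit b = true → 6 ≤ (b : ℕ)) ∧
    ∀ b : Fin 12, (4032 : ℕ).testBit b = false → (b : ℕ) < 6 := by decide +kernel

/-- The complement of the chart is a simplicial cell. -/
theorem simp_comp (h : SatC χ (2 ^ 37 - 1) (wS + 2 ^ 36)) : Simp χ 4032 2016 := by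
  intro b hb hbF k hk hkF
  have hb6 := comp_bits.1 ⟨b, hb⟩ hbF
  have hk6 := comp_bits.2 ⟨k, hk⟩ hkF
  obtain ⟨b', rfl⟩ : ∃ b' : Fin 6, b = 6 + (b' : ℕ) :=
    ⟨⟨b - 6, by omega⟩, by show b = 6 + (b - 6); change 6 ≤ b at hb6; omega⟩
  obtain ⟨k', rfl⟩ : ∃ k' : Fin 6, k = (k' : ℕ) := ⟨⟨k, hk6⟩, rfl⟩
  have h1 := h.1 b' k' (comp_facts b' k').1
  rw [(comp_facts b' k').2, sigma] at h1
  change xor (csm χ (mS b') (6 + (b' : ℕ))) (csm χ (mS b') k') = _
  revert h1
  cases csm χ (mS b') (6 + (b' : ℕ)) <;> cases csm χ (mS b') k' <;>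
    cases (2016 : ℕ).testBit (6 + (b' : ℕ)) <;> cases (2016 : ℕ).testBit k' <;> decide

/-- The signs after both mutations. -/
def dX (χ : ℕ → Bool) : ℕ → Bool := reX 63 true (muX 63 (muX 4032 χ))

/-- The topes after both mutations. -/
def dT (T : ℕ → Bool) : ℕ → Bool := reT 63 (muT 63 4095 (muT 4032 2016 T))

theorem chkA : chkM 0 tabA 4032 2016 = true := by decide +kernel

theorem chkB : chkM tabA tabB 63 4095 = true := by decide +kernel

theorem chkD : chkR tabB tabD 63 = true := by decide +kernel

theorem other_cell : ∀ b k : Fin 12, (63 ^^^ 2 ^ (b : ℕ)) ||| 2 ^ (k : ℕ) ≠ 4032 := by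
  decide +kernel

theorem simp_63 (hS : Simp χ 63 4095) : Simp (muX 4032 χ) 63 4095 :=
  simp_muX hS (by norm_num) (by norm_num) fun b hb k hk _ _ => other_cell ⟨b, hb⟩ ⟨k, hk⟩

theorem xmodel_dX (hM : Model χ T) (hS : Simp χ 63 4095) (hC : Simp χ 4032 2016) :
    Pool.Agent.H28.Z12.X.XModel tabD (dX χ) (dT T) :=
  toX (xmodel_reX (xmodel_muX (xmodel_muX (xmodel_of_model (tab := 0) hM) (by decide +kernel)
    (by norm_num) (by norm_num) hC chkA) (by decide +kernel) (by norm_num) (by norm_num)
    (simp_63 hS) chkB) (by norm_num) chkD)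

theorem simp_dX (hS : Simp χ 63 4095) : Simp (dX χ) 63 4095 := by
  have h := simp_reX (r := 63) (b := true) (simp_self (simp_63 hS) (by norm_num)) (by norm_num)
  have e : (4095 ^^^ 63 ^^^ 63 : ℕ) = 4095 := by decide +kernel
  rw [e] at h
  exact h

theorem dX_val {A : ℕ} (hA : A < 4096) (h1 : A ≠ 63) (h2 : A ≠ 4032) :
    dX χ A = xor (χ A) (!(prr 63 A)) := by
  rw [dX, reX_small hA, muX_ne hA h1, muX_ne hA h2, Bool.xor_true]

theorem dX_63 : dX χ 63 = χ 63 := by
  have e : prr 63 63 = false := by decide +kernel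
  rw [dX, reX_small (by norm_num), muX_self (by norm_num), muX_ne (by norm_num) (by norm_num), e]
  cases χ 63 <;> rfl

theorem dX_4032 : dX χ 4032 = χ 4032 := by
  have e : prr 63 4032 = false := by decide +kernel
  rw [dX, reX_small (by norm_num), muX_ne (by norm_num) (by norm_num), muX_self (by norm_num), e]
  cases χ 4032 <;> rfl

theorem mS_prr : ∀ k j : Fin 6, prr 63 (mS k ||| 2 ^ (j : ℕ)) = true ∧
    mS k ||| 2 ^ (j : ℕ) < 4096 ∧ mS k ||| 2 ^ (j : ℕ) ≠ 63 ∧ mS k ||| 2 ^ (j : ℕ) ≠ 4032 := by
  decide +kernel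

theorem sigma_dX (k j : Fin 6) : sigma (dX χ) k j = sigma χ k j := by
  obtain ⟨h1, h2, h3, h4⟩ := mS_prr k j
  rw [sigma, sigma, csm, csm, csm, csm, dX_val h2 h3 h4, h1, (mS_or k).1, dX_4032,
    Bool.not_true, Bool.xor_false]

theorem satC_dX {m w : ℕ} (h : SatC χ m w) : SatC (dX χ) m w :=
  ⟨fun k j hm => by rw [sigma_dX]; exact h.1 k j hm, fun hm => by rw [dX_4032]; exact h.2 hm⟩

theorem mm_facts : ∀ k j : Fin 6, k < 5 → j < 5 → prr 63 (mm j 5 k 5) = false ∧
    mm j 5 k 5 < 4096 ∧ mm j 5 k 5 ≠ 63 ∧ mm j 5 k 5 ≠ 4032 := by decide +kernel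

theorem dX_mm {k j : Fin 6} (hk : k < 5) (hj : j < 5) :
    dX χ (mm j 5 k 5) = !(χ (mm j 5 k 5)) := by
  obtain ⟨h1, h2, h3, h4⟩ := mm_facts k j hk hj
  rw [dX_val h2 h3 h4, h1, Bool.not_false, Bool.xor_true]

theorem starE_mem {m w : ℕ} {k j : Fin 6} (h : m.testBit (6 * (k : ℕ) + j) = true) :
    (mm j 5 k 5, xor (mb j 5) (!(w.testBit (6 * (k : ℕ) + j)))) ∈ starE m w := by
  unfold starE
  refine List.mem_flatMap.2 ⟨k, List.mem_finRange k, List.mem_flatMap.2 ⟨j, List.mem_finRange j, ?_⟩⟩
  rw [if_pos h]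
  exact List.mem_singleton.2 rfl

/-- The complementary pattern of minors. -/
def cpl (m w : ℕ) : ℕ := w ^^^ (m &&& (2 ^ 36 - 1))

theorem cpl_36 (m w : ℕ) : (cpl m w).testBit 36 = w.testBit 36 := by
  rw [cpl, Nat.testBit_xor, Nat.testBit_and, Nat.testBit_two_pow_sub_one]
  simp

theorem cpl_tb {m w : ℕ} {k j : Fin 6} (h : m.testBit (6 * (k : ℕ) + j) = true) :
    (cpl m w).testBit (6 * (k : ℕ) + j) = !(w.testBit (6 * (k : ℕ) + j)) := by
  rw [cpl, Nat.testBit_xor, Nat.testBit_and, Nat.testBit_two_pow_sub_one, h,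
    decide_eq_true (by omega), Bool.true_and, Bool.xor_true]

theorem okM_cpl {m w : ℕ} (h : okM m w = true) : okM m (cpl m w) = true := by
  unfold okM at h ⊢
  rw [cpl_36]
  exact h

/-- A nogood of the minors is refuted without the cells around the two simplices. -/
def StarX (m w : ℕ) : Prop := okM m w = true ∧
  XRefX tabD (2 ^ 37 - 1) (wS + 2 ^ 36) (starE m w) 0 0

theorem StarX.starRef {m w : ℕ} (h : StarX m w) : StarRef m w := ⟨h.1, h.2.refX⟩

/-- **The double mutation.** The complementary nogood is refuted as well. -/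
theorem StarX.starRef_cpl {m w : ℕ} (h : StarX m w) : StarRef m (cpl m w) := by
  obtain ⟨hok, href⟩ := h
  refine ⟨okM_cpl hok, ?_⟩
  intro χ T hM h63 hS hs hE _
  refine href (dX χ) (dT T) (xmodel_dX hM hS (simp_comp hs)) (dX_63.trans h63) (simp_dX hS)
    (satC_dX hs) ?_ fun e he => absurd he (Nat.not_lt_zero e)
  intro p hp
  obtain ⟨k, j, hm, rfl⟩ := mem_starE hp
  obtain ⟨hk, hj⟩ := (okM_spec hok).2.2 k j hm
  have h1 := hE _ (starE_mem hm)
  rw [cpl_tb hm] at h1
  show dX χ (mm j 5 k 5) = xor (mb j 5) (!(w.testBit (6 * (k : ℕ) + j)))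
  have h2 : χ (mm j 5 k 5) = xor (mb j 5) (!(!(w.testBit (6 * (k : ℕ) + j)))) := h1
  rw [dX_mm hk hj, h2]
  cases mb j 5 <;> cases w.testBit (6 * (k : ℕ) + j) <;> rfl

theorem StarX.noZ {m w : ℕ} (h : StarX m w) : NoZ m w := noZ_of_starRef h.starRef

theorem StarX.noZ_cpl {m w : ℕ} (h : StarX m w) : NoZ m (cpl m w) :=
  noZ_of_starRef h.starRef_cpl

/-! ### Further signs of minors of order two -/

/-- The sign of the mask is reversed by the double mutation. -/
def okE (e : ℕ × Bool) : Bool := decide (e.1 < 4096) && !(Nat.beq e.1 63) && !(Nat.beq e.1 4032) &&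
  !(prr 63 e.1)

theorem dX_okE {e : ℕ × Bool} (h : okE e = true) : dX χ e.1 = !(χ e.1) := by
  unfold okE at h
  rw [Bool.and_eq_true, Bool.and_eq_true, Bool.and_eq_true, decide_eq_true_iff] at h
  obtain ⟨⟨⟨h1, h2⟩, h3⟩, h4⟩ := h
  have h2' : e.1 ≠ 63 := fun h0 => by rw [h0, Nat.beq_refl] at h2; exact Bool.noConfusion h2
  have h3' : e.1 ≠ 4032 := fun h0 => by rw [h0, Nat.beq_refl] at h3; exact Bool.noConfusion h3
  have h4' : prr 63 e.1 = false := by simpa using h4
  rw [dX_val h1 h2' h3', h4', Bool.not_false, Bool.xor_true]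

/-- The special class with positive determinant. -/
abbrev SatS (M : Fin 6 → Fin 6 → ℝ) : Prop :=
  Pool.Agent.H77.Z12.Sat (2 ^ 37 - 1) (wS + 2 ^ 36) (stt M)

theorem satS_of {M : Fin 6 → Fin 6 → ℝ} (h : Pool.Agent.H77.Z12.Sat (2 ^ 36 - 1) wS (stt M))
    (hd : (stt M).2 = true) : SatS M := by
  refine ⟨fun k j _ => ?_, fun _ => ?_⟩
  · rw [wS36]
    exact h.1 k j (full_tb _ _)
  · rw [hd]
    decide +kernel

attribute [local irreducible] chiN topN sigma

/-- **The signs `E` are excluded.** -/
theorem noE {E : List (ℕ × Bool)} (h : XRefX tabD (2 ^ 37 - 1) (wS + 2 ^ 36) E 0 0)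
    {M : Fin 6 → Fin 6 → ℝ} (hb : Bad (cf M)) (hM : ∀ i c, 0 < M i c) (hs : SatS M) :
    ¬ ∀ e ∈ E, chiN (cf M) e.1 = e.2 := by
  intro hE
  obtain ⟨h63, hS, hMod⟩ := chart_facts hb hM
  exact h _ _ (Pool.Agent.H28.Z12.X.xmodel_of_model hMod) h63 hS (satC_iff.2 hs) hE
    fun e he => absurd he (Nat.not_lt_zero e)

/-- **The reversed signs are excluded as well.** -/
theorem noE_cpl {E : List (ℕ × Bool)} (h : XRefX tabD (2 ^ 37 - 1) (wS + 2 ^ 36) E 0 0)
    (hok : (E.all okE) = true) {M : Fin 6 → Fin 6 → ℝ} (hb : Bad (cf M))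
    (hM : ∀ i c, 0 < M i c) (hs : SatS M) : ¬ ∀ e ∈ E, chiN (cf M) e.1 = !e.2 := by
  intro hE
  obtain ⟨h63, hS, hMod⟩ := chart_facts hb hM
  have hC := satC_iff.2 hs
  refine h (dX (chiN (cf M))) (dT (topN (cf M))) (xmodel_dX hMod hS (simp_comp hC))
    (dX_63.trans h63) (simp_dX hS) (satC_dX hC) ?_ fun e he => absurd he (Nat.not_lt_zero e)
  intro e he
  rw [dX_okE (List.all_eq_true.1 hok e he), hE e he, Bool.not_not]

/-- The form of a piece as printed by the converter. -/
theorem piece_of {D m w : ℕ} {E E' : List (ℕ × Bool)} (h : XRefX D m w E 0 0) (hD : D = tabD)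
    (hm : m = 2 ^ 37 - 1) (hw : w = wS + 2 ^ 36) (hE : E = E') :
    XRefX tabD (2 ^ 37 - 1) (wS + 2 ^ 36) E' 0 0 := by
  subst hD hm hw hE
  exact h

end Pool.Agent.H89.Z12
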