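import Mathlib
import Pool.Agent.H89.Z12.Double
import Pool.Agent.H26.Z12.Lam

/-!
The self dual class in the chart of maximal rank: the rank is the number of rows and columns with
at least two positive signs, which is two for the self dual class (MP_1e71f9_co).
-/

set_option autoImplicit false

namespace Pool.Agent.H89.Z12

open Pool.Agent.H77.Z12 Pool.Agent.H64.Z12 Pool.Agent.H28.Z12 Pool.Agent.H13.Z12
  Pool.Agent.H28.Z12.Cov Pool.Agent.H26.Z12 Pool.Agent.H72.Z12

/-- The special class with negative determinant. -/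
abbrev SatN (M : Fin 6 → Fin 6 → ℝ) : Prop :=
  Pool.Agent.H77.Z12.Sat (2 ^ 37 - 1) wS (stt M)

theorem satN_of {M : Fin 6 → Fin 6 → ℝ} (h : Pool.Agent.H77.Z12.Sat (2 ^ 36 - 1) wS (stt M))
    (hd : (stt M).2 = false) : SatN M := by
  refine ⟨fun k j _ => h.1 k j (full_tb _ _), fun _ => ?_⟩
  rw [hd]
  decide +kernel

/-- Refuted with clauses of charts of rank at least three. -/
def LamRef (w : ℕ) (E : List (ℕ × Bool)) : Prop := ∃ X nX Y nY : ℕ,
  RefXY (2 ^ 37 - 1) w E X nX Y nY ∧ ExtOK X nX ∧ chkY2 lamT lamT 2 Y nY = true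

/-- The form of a piece as printed by the converter. -/
theorem lamRef_of {m w w' X nX Y nY : ℕ} {E E' : List (ℕ × Bool)} (h : RefXY m w E X nX Y nY)
    (hx : ExtOK X nX) (hc : chkY2 lamT lamT 2 Y nY = true) (hm : m = 2 ^ 37 - 1) (hw : w = w')
    (hE : E = E') : LamRef w' E' := by
  subst hm hw hE
  exact ⟨X, nX, Y, nY, h, hx, hc⟩

theorem lamRef_sref {w : ℕ} {E : List (ℕ × Bool)} (h : LamRef w E) (hr : MaxK lamT lamT 2) :
    SRef (2 ^ 37 - 1) w E := by
  obtain ⟨X, nX, Y, nY, h1, hx, hc⟩ := h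
  exact sref_of_refXY h1 hx (yOK_of2 mono_lamT mono_lamT hr hc)

attribute [local irreducible] chiN topN sigma

/-- **The signs `E` are excluded**, positive determinant. -/
theorem noE_lam {E : List (ℕ × Bool)} (h : LamRef (wS + 2 ^ 36) E) (hr : MaxK lamT lamT 2)
    {M : Fin 6 → Fin 6 → ℝ} (hb : Bad (cf M)) (hM : ∀ i c, 0 < M i c) (hs : SatS M) :
    ¬ ∀ e ∈ E, chiN (cf M) e.1 = e.2 := fun hE =>
  lamRef_sref h hr M hb hM (satC_iff.2 hs) hE

/-- **The signs `E` are excluded**, negative determinant. -/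
theorem noE_lamN {E : List (ℕ × Bool)} (h : LamRef wS E) (hr : MaxK lamT lamT 2)
    {M : Fin 6 → Fin 6 → ℝ} (hb : Bad (cf M)) (hM : ∀ i c, 0 < M i c) (hs : SatN M) :
    ¬ ∀ e ∈ E, chiN (cf M) e.1 = e.2 := fun hE =>
  lamRef_sref h hr M hb hM (satC_iff.2 hs) hE

/-- The signs of the minors with the pivot `(5, 5)`. -/
theorem starE_zst {m w : ℕ} (hkj : ∀ k j : Fin 6, m.testBit (6 * (k : ℕ) + j) = true →
    k < 5 ∧ j < 5) {M : Fin 6 → Fin 6 → ℝ} (hb : Bad (cf M)) (hM : ∀ i c, 0 < M i c)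
    (hsat : ∀ k j : Fin 6, m.testBit (6 * (k : ℕ) + j) = true →
      (zst M).1 k j = w.testBit (6 * (k : ℕ) + j)) :
    ∀ e ∈ starE m w, chiN (cf M) e.1 = e.2 := by
  obtain ⟨h63, hS, hMod⟩ := chart_facts hb hM
  intro e he
  obtain ⟨k, j, hm, rfl⟩ := mem_starE he
  obtain ⟨hk, hj⟩ := hkj k j hm
  have h1 := hsat k j hm
  have h2 := minor_sign hb.1 hj hk
  show chiN (cf M) (mm j 5 k 5) = _
  have h3 : decide (0 < M j k * M 5 5 - M 5 k * M j 5) = w.testBit (6 * (k : ℕ) + j) := h1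
  rcases lt_or_gt_of_ne h2.1 with h4 | h4
  · rw [decide_eq_false (not_lt.2 h4.le)] at h3
    rw [← h3]
    have h5 := chi_mm_neg h63 hj hk (h2.2.2 h4)
    have h6 : ((5 : Fin 6) : ℕ) = 5 := rfl
    rw [h6] at h5
    rw [h5]
    cases mb ↑j 5 <;> rfl
  · rw [decide_eq_true h4] at h3
    rw [← h3]
    have h5 := chi_mm h63 hj hk (h2.2.1 h4)
    have h6 : ((5 : Fin 6) : ℕ) = 5 := rfl
    rw [h6] at h5
    rw [h5]
    cases mb ↑j 5 <;> rfl

/-- An excluded pattern of minors, from a refutation of configurations. -/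
theorem noZ_of_sref {m w : ℕ} (hok : okM m w = true)
    (h : SRef (2 ^ 37 - 1) (wS + 2 ^ 36) (starE m w)) : NoZ m w := by
  intro M hb hM hs hsat
  obtain ⟨h36, w36, hkj⟩ := okM_spec hok
  refine h M hb hM (satC_iff.2 (satS_of hs ?_)) (starE_zst hkj hb hM hsat.1)
  have h2 := hsat.2 h36
  rw [w36] at h2
  exact h2

/-- **A pattern of minors is excluded** in the chart of maximal rank. -/
theorem noZ_lam {m w : ℕ} (hok : okM m w = true) (h : LamRef (wS + 2 ^ 36) (starE m w))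
    (hr : MaxK lamT lamT 2) : NoZ m w :=
  noZ_of_sref hok (lamRef_sref h hr)

/-- Both signs of the determinant. -/
theorem noZ_both {m w : ℕ} (hkj : ∀ k j : Fin 6, m.testBit (6 * (k : ℕ) + j) = true →
    k < 5 ∧ j < 5) (h1 : SRef (2 ^ 37 - 1) (wS + 2 ^ 36) (starE m w))
    (h0 : SRef (2 ^ 37 - 1) wS (starE m w)) : NoZ m w := by
  intro M hb hM hs hsat
  rcases hD : (stt M).2 with _ | _
  · exact h0 M hb hM (satC_iff.2 (satN_of hs hD)) (starE_zst hkj hb hM hsat.1)
  · exact h1 M hb hM (satC_iff.2 (satS_of hs hD)) (starE_zst hkj hb hM hsat.1)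

theorem rank_star : NR lamT lamT (hiN (2 ^ 36 - 1) wS) = 2 := by decide +kernel

/-- **The self dual class is excluded in the chart of maximal rank.** -/
theorem cg_star (h : MaxK lamT lamT 2 → Good (2 ^ 36 - 1) wS) :
    CG (RR lamT lamT) (2 ^ 36 - 1) wS :=
  cg_of_maxK (r := 2) mono_lamT mono_lamT (by rw [rank_star]; rfl) h

/-- The same with the list of excluded patterns of minors. -/
theorem cg_star_of_noZ {G nG : ℕ} (hc : ∀ s, Tr s → Hit5 G nG s)
    (hg : MaxK lamT lamT 2 → ∀ i < nG, NoZ (ngM G i) (ngV G i)) :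
    CG (RR lamT lamT) (2 ^ 36 - 1) wS :=
  cg_star fun hr => good_of_noZ hc (hg hr)

/-- In the sorted frame. -/
theorem cs_of_cg {R : St36 → ℕ} {m w : ℕ} (h : CG R m w) : CS R m w := fun s hs hr M hb hM _ =>
  h s hs hr M hb hM

end Pool.Agent.H89.Z12
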