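import Mathlib
import Pool.Agent.H89.Z12.StarLam
import Pool.Agent.H26.Z12.SortedFlip

/-!
The self dual class: equal rows and equal columns of the pattern of minors may be sorted; both
signs of the determinant (MP_1e71f9_co).
-/

set_option autoImplicit false

namespace Pool.Agent.H89.Z12

open Pool.Agent.H77.Z12 Pool.Agent.H64.Z12 Pool.Agent.H28.Z12 Pool.Agent.H13.Z12
  Pool.Agent.H28.Z12.Cov Pool.Agent.H26.Z12 Pool.Agent.H72.Z12

/-! ### The double mutation for both signs of the determinant -/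

section

variable {χ T : ℕ → Bool}

theorem comp_facts' : ∀ k j : Fin 6, wS.testBit (6 * (k : ℕ) + j) =
      !(xor ((2016 : ℕ).testBit (6 + (k : ℕ))) ((2016 : ℕ).testBit j)) := by decide +kernel

/-- The complement of the chart is a simplicial cell, for both signs of the determinant. -/
theorem simp_comp' (h : ∀ k j : Fin 6, sigma χ k j = wS.testBit (6 * (k : ℕ) + j)) :
    Simp χ 4032 2016 := by
  intro b hb hbF k hk hkF
  have hb6 := comp_bits.1 ⟨b, hb⟩ hbF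
  have hk6 := comp_bits.2 ⟨k, hk⟩ hkF
  obtain ⟨b', rfl⟩ : ∃ b' : Fin 6, b = 6 + (b' : ℕ) :=
    ⟨⟨b - 6, by omega⟩, by show b = 6 + (b - 6); change 6 ≤ b at hb6; omega⟩
  obtain ⟨k', rfl⟩ : ∃ k' : Fin 6, k = (k' : ℕ) := ⟨⟨k, hk6⟩, rfl⟩
  have h1 := h b' k'
  rw [comp_facts', sigma] at h1
  change xor (csm χ (mS b') (6 + (b' : ℕ))) (csm χ (mS b') k') = _
  revert h1
  cases csm χ (mS b') (6 + (b' : ℕ)) <;> cases csm χ (mS b') k' <;>
    cases (2016 : ℕ).testBit (6 + (b' : ℕ)) <;> cases (2016 : ℕ).testBit k' <;> decide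

end

/-! ### Excluded lists of signs -/

/-- No bad configuration of the special class with the determinant of `w` has the signs `E`. -/
def NoE (w : ℕ) (E : List (ℕ × Bool)) : Prop := ∀ M : Fin 6 → Fin 6 → ℝ, Bad (cf M) →
  (∀ i c, 0 < M i c) → Pool.Agent.H77.Z12.Sat (2 ^ 37 - 1) w (stt M) →
  ¬ ∀ e ∈ E, chiN (cf M) e.1 = e.2

/-- The reversed signs. -/
def negE (E : List (ℕ × Bool)) : List (ℕ × Bool) := E.map fun e => (e.1, !e.2)

theorem mem_negE {E : List (ℕ × Bool)} {e : ℕ × Bool} (h : e ∈ negE E) : (e.1, !e.2) ∈ E := by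
  obtain ⟨x, hx, rfl⟩ := List.mem_map.1 h
  have e1 : ((x.1, !x.2).1, !(x.1, !x.2).2) = x := by
    show (x.1, !(!x.2)) = x
    rw [Bool.not_not]
  rw [e1]
  exact hx

theorem negE_mem {E : List (ℕ × Bool)} {e : ℕ × Bool} (h : (e.1, !e.2) ∈ E) : e ∈ negE E := by
  refine List.mem_map.2 ⟨_, h, ?_⟩
  show (e.1, !(!e.2)) = e
  rw [Bool.not_not]

attribute [local irreducible] chiN topN sigma

theorem noE_of_sref {w : ℕ} {E : List (ℕ × Bool)} (h : SRef (2 ^ 37 - 1) w E) : NoE w E :=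
  fun M hb hM hs hE => h M hb hM (satC_iff.2 hs) hE

/-- From a piece with clauses of charts. -/
theorem noE_of_lam {w : ℕ} {E : List (ℕ × Bool)} (h : LamRef w E) (hr : MaxK lamT lamT 2) :
    NoE w E := noE_of_sref (lamRef_sref h hr)

/-- From a plain piece. -/
theorem noE_of_ref {w : ℕ} {E : List (ℕ × Bool)} (h : RefX (2 ^ 37 - 1) w E 0 0) : NoE w E :=
  noE_of_sref (sref_of_refX h (extOK_zero 0))

/-- From a piece without the cells around the two simplices. -/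
theorem noE_of_x {w : ℕ} {E : List (ℕ × Bool)} (h : XRefX tabD (2 ^ 37 - 1) w E 0 0) :
    NoE w E := noE_of_ref h.refX

/-- From a piece without the cells around the two simplices: the reversed signs. -/
theorem noE_of_x_neg {w : ℕ} {E : List (ℕ × Bool)} (h : XRefX tabD (2 ^ 37 - 1) w E 0 0)
    (hw : ∀ k j : Fin 6, w.testBit (6 * (k : ℕ) + j) = wS.testBit (6 * (k : ℕ) + j))
    (hok : (E.all okE) = true) : NoE w (negE E) := by
  intro M hb hM hs hE
  obtain ⟨h63, hS, hMod⟩ := chart_facts hb hM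
  have hC := satC_iff.2 hs
  have h2 : ∀ k j : Fin 6, sigma (chiN (cf M)) k j = wS.testBit (6 * (k : ℕ) + j) := by
    intro k j
    rw [← hw]
    refine hC.1 k j ?_
    rw [Nat.testBit_two_pow_sub_one, decide_eq_true (by omega)]
  refine h (dX (chiN (cf M))) (dT (topN (cf M))) (xmodel_dX hMod hS (simp_comp' h2))
    (dX_63.trans h63) (simp_dX hS) (satC_dX hC) ?_ fun e he => absurd he (Nat.not_lt_zero e)
  intro e he
  have h3 := hE (e.1, !e.2) (negE_mem (by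
    show (e.1, !(!e.2)) ∈ E
    rw [Bool.not_not]
    exact he))
  have h4 : chiN (cf M) e.1 = !e.2 := h3
  rw [dX_okE (List.all_eq_true.1 hok e he), h4, Bool.not_not]

/-! ### Sorting -/

/-- All signs of `E` are minors of the pattern or signs of the list `L`. -/
def subZ (E : List (ℕ × Bool)) (m v : ℕ) (L : List (ℕ × Bool)) : Bool :=
  E.all fun e => (starE m v ++ L).contains e

theorem subZ_spec {E L : List (ℕ × Bool)} {m v : ℕ} (h : subZ E m v L = true) :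
    ∀ e ∈ E, e ∈ starE m v ∨ e ∈ L := fun e he =>
  List.mem_append.1 (List.contains_iff_mem.1 (List.all_eq_true.1 h e he))

/-- The mask has no entry in row or column `5` and no sign of the determinant. -/
def okZ (m : ℕ) : Bool := decide (m < 2 ^ 36) &&
  (List.finRange 6).all fun k => (List.finRange 6).all fun j =>
    !(m.testBit (6 * (k : ℕ) + j)) || (decide (k < 5) && decide (j < 5))

theorem okZ_spec {m : ℕ} (h : okZ m = true) : m < 2 ^ 36 ∧
    ∀ k j : Fin 6, m.testBit (6 * (k : ℕ) + j) = true → k < 5 ∧ j < 5 := by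
  unfold okZ at h
  rw [Bool.and_eq_true, decide_eq_true_iff] at h
  refine ⟨h.1, fun k j hkj => ?_⟩
  have h2 := List.all_eq_true.1 (List.all_eq_true.1 h.2 k (List.mem_finRange k)) j
    (List.mem_finRange j)
  rw [hkj] at h2
  simpa using h2

/-- The data of a sorted pattern: blocks `p` of rows and `q` of columns (octal digits), reference
rows `a1, a2` and columns `c1, c2`. -/
def SortD (p q m v : ℕ) (a1 a2 c1 c2 : Fin 6) : Prop := a1 < a2 ∧ c1 < c2 ∧ okZ m = true ∧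
  Inv p q m v ∧ SortOK (Pool.Agent.H26.Z12.blk p) (Pool.Agent.H26.Z12.blk q) a1 a2 c1 c2 ∧
  (∀ x, Pool.Agent.H26.Z12.blk p x = Pool.Agent.H26.Z12.blk p 5 → x = 5) ∧
  ∀ x, Pool.Agent.H26.Z12.blk q x = Pool.Agent.H26.Z12.blk q 5 → x = 5

instance (p q m v : ℕ) (a1 a2 c1 c2 : Fin 6) : Decidable (SortD p q m v a1 a2 c1 c2) := by
  unfold SortD; infer_instance

theorem inv_cpl {p q m v : ℕ} (h : Inv p q m v) : Inv p q m (cpl m v) := by
  intro k k' j j' hk hj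
  obtain ⟨h1, h2⟩ := h k k' j j' hk hj
  refine ⟨h1, fun hm => ?_⟩
  rw [cpl_tb hm, cpl_tb (h1 ▸ hm), h2 hm]

theorem SortD.cpl {p q m v : ℕ} {a1 a2 c1 c2 : Fin 6} (h : SortD p q m v a1 a2 c1 c2) :
    SortD p q m (cpl m v) a1 a2 c1 c2 :=
  ⟨h.1, h.2.1, h.2.2.1, inv_cpl h.2.2.2.1, h.2.2.2.2⟩

/-- The core. -/
theorem noZ_srt {p q m v : ℕ} {E1 E0 L : List (ℕ × Bool)} {a1 a2 c1 c2 : Fin 6}
    (h1 : NoE (wS + 2 ^ 36) E1) (h0 : NoE wS E0) (hD : SortD p q m v a1 a2 c1 c2)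
    (hL : ∀ M : Fin 6 → Fin 6 → ℝ, Bad (cf M) → (∀ i c, 0 < M i c) →
      ∃ ρ γ : Equiv.Perm (Fin 6),
        (∀ x, Pool.Agent.H26.Z12.blk p (ρ x) = Pool.Agent.H26.Z12.blk p x) ∧
        (∀ x, Pool.Agent.H26.Z12.blk q (γ x) = Pool.Agent.H26.Z12.blk q x) ∧
        ∀ e ∈ L, chiN (cf fun a b => M (ρ a) (γ b)) e.1 = e.2)
    (s1 : ∀ e ∈ E1, e ∈ starE m v ∨ e ∈ L) (s0 : ∀ e ∈ E0, e ∈ starE m v ∨ e ∈ L) :
    NoZ m v := by
  intro M hb hM hs hsat
  obtain ⟨-, -, hz, hinv, -, hp5, hq5⟩ := hD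
  obtain ⟨hm, hkj⟩ := okZ_spec hz
  obtain ⟨ρ, γ, hρ, hγ, hE⟩ := hL M hb hM
  have hρ5 : ρ 5 = 5 := hp5 _ (hρ 5)
  have hγ5 : γ 5 = 5 := hq5 _ (hγ 5)
  have hb' := bad_perm hb ρ γ
  have hM' : ∀ i c, 0 < (fun a b => M (ρ a) (γ b)) i c := fun i c => hM _ _
  have hs' : Pool.Agent.H77.Z12.Sat (2 ^ 36 - 1) wS (stt fun a b => M (ρ a) (γ b)) := by
    refine ⟨fun k j _ => ?_, fun h => absurd h (by decide +kernel)⟩
    rw [stt_perm hb]
    show (stt M).1 (γ k) (ρ j) = _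
    rw [hs.1 (γ k) (ρ j) (full_tb _ _)]
    exact wS_inv hρ5 hγ5 k j
  have hz' : Pool.Agent.H77.Z12.Sat m v (zst fun a b => M (ρ a) (γ b)) := by
    rw [zst_perm hb hρ5 hγ5]
    exact sat_act hinv hm hρ hγ hsat
  have hst := starE_zst hkj hb' hM' hz'.1
  have hall : ∀ {E : List (ℕ × Bool)}, (∀ e ∈ E, e ∈ starE m v ∨ e ∈ L) →
      ∀ e ∈ E, chiN (cf fun a b => M (ρ a) (γ b)) e.1 = e.2 := by
    intro E hE' e he
    rcases hE' e he with h | h
    · exact hst e h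
    · exact hE e h
  rcases hD : (stt fun a b => M (ρ a) (γ b)).2 with _ | _
  · exact h0 _ hb' hM' (satN_of hs' hD) (hall s0)
  · exact h1 _ hb' hM' (satS_of hs' hD) (hall s1)

/-- Sorted in the positive direction. -/
theorem exists_pos {p q : ℕ} {a1 a2 c1 c2 : Fin 6} (ha : a1 < a2) (hc : c1 < c2)
    (hok : SortOK (Pool.Agent.H26.Z12.blk p) (Pool.Agent.H26.Z12.blk q) a1 a2 c1 c2)
    {M : Fin 6 → Fin 6 → ℝ} (hb : Bad (cf M)) (hM : ∀ i c, 0 < M i c) :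
    ∃ ρ γ : Equiv.Perm (Fin 6),
      (∀ x, Pool.Agent.H26.Z12.blk p (ρ x) = Pool.Agent.H26.Z12.blk p x) ∧
      (∀ x, Pool.Agent.H26.Z12.blk q (γ x) = Pool.Agent.H26.Z12.blk q x) ∧
      ∀ e ∈ srtE p q a1 a2 c1 c2, chiN (cf fun a b => M (ρ a) (γ b)) e.1 = e.2 := by
  obtain ⟨ρ, γ, hρ, hγ, hsr⟩ := exists_srt hM hb ha hc hok
  have hb' := bad_perm hb ρ γ
  obtain ⟨h63, -, -⟩ := chart_facts hb' (fun i c => hM _ _)
  refine ⟨ρ, γ, hρ, hγ, fun e he => ?_⟩
  rcases mem_srtE he with ⟨x, y, hxy, hp, rfl⟩ | ⟨x, y, hxy, hq, rfl⟩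
  · exact chi_mm h63 hxy hc ((minor_sign hb'.1 hxy hc).2.1 (hsr.1 x y hxy hp))
  · exact chi_mm h63 ha hxy ((minor_sign hb'.1 ha hxy).2.1 (hsr.2 x y hxy hq))

/-- Sorted in the negative direction. -/
theorem exists_neg {p q : ℕ} {a1 a2 c1 c2 : Fin 6} (ha : a1 < a2) (hc : c1 < c2)
    (hok : SortOK (Pool.Agent.H26.Z12.blk p) (Pool.Agent.H26.Z12.blk q) a1 a2 c1 c2)
    {M : Fin 6 → Fin 6 → ℝ} (hb : Bad (cf M)) (hM : ∀ i c, 0 < M i c) :
    ∃ ρ γ : Equiv.Perm (Fin 6),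
      (∀ x, Pool.Agent.H26.Z12.blk p (ρ x) = Pool.Agent.H26.Z12.blk p x) ∧
      (∀ x, Pool.Agent.H26.Z12.blk q (γ x) = Pool.Agent.H26.Z12.blk q x) ∧
      ∀ e ∈ negE (srtE p q a1 a2 c1 c2), chiN (cf fun a b => M (ρ a) (γ b)) e.1 = e.2 := by
  obtain ⟨ρ, γ, hρ, hγ, hsr⟩ := exists_srt_neg hM hb ha hc hok
  have hb' := bad_perm hb ρ γ
  obtain ⟨h63, -, -⟩ := chart_facts hb' (fun i c => hM _ _)
  refine ⟨ρ, γ, hρ, hγ, fun e he => ?_⟩
  obtain ⟨d, hd, rfl⟩ := List.mem_map.1 he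
  rcases mem_srtE hd with ⟨x, y, hxy, hp, rfl⟩ | ⟨x, y, hxy, hq, rfl⟩
  · exact chi_mm_neg h63 hxy hc ((minor_sign hb'.1 hxy hc).2.2 (hsr.1 x y hxy hp))
  · exact chi_mm_neg h63 ha hxy ((minor_sign hb'.1 ha hxy).2.2 (hsr.2 x y hxy hq))

/-- **Sorted patterns of minors**, negative direction, both signs of the determinant. -/
theorem noZ_sorted {p q m v : ℕ} {E1 E0 : List (ℕ × Bool)} {a1 a2 c1 c2 : Fin 6}
    (h1 : NoE (wS + 2 ^ 36) E1) (h0 : NoE wS E0) (hD : SortD p q m v a1 a2 c1 c2)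
    (s1 : subZ E1 m v (negE (srtE p q a1 a2 c1 c2)) = true)
    (s0 : subZ E0 m v (negE (srtE p q a1 a2 c1 c2)) = true) : NoZ m v :=
  noZ_srt h1 h0 hD (fun _ hb hM => exists_neg hD.1 hD.2.1 hD.2.2.2.2.1 hb hM) (subZ_spec s1)
    (subZ_spec s0)

/-- Positive direction. -/
theorem noZ_sorted_pos {p q m v : ℕ} {E1 E0 : List (ℕ × Bool)} {a1 a2 c1 c2 : Fin 6}
    (h1 : NoE (wS + 2 ^ 36) E1) (h0 : NoE wS E0) (hD : SortD p q m v a1 a2 c1 c2)
    (s1 : subZ E1 m v (srtE p q a1 a2 c1 c2) = true)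
    (s0 : subZ E0 m v (srtE p q a1 a2 c1 c2) = true) : NoZ m v :=
  noZ_srt h1 h0 hD (fun _ hb hM => exists_pos hD.1 hD.2.1 hD.2.2.2.2.1 hb hM) (subZ_spec s1)
    (subZ_spec s0)

/-- **The complementary pattern** from the same two pieces. -/
theorem noZ_sorted_cpl {p q m v : ℕ} {E1 E0 : List (ℕ × Bool)} {a1 a2 c1 c2 : Fin 6}
    (h1 : XRefX tabD (2 ^ 37 - 1) (wS + 2 ^ 36) E1 0 0) (h0 : XRefX tabD (2 ^ 37 - 1) wS E0 0 0)
    (k1 : (E1.all okE) = true) (k0 : (E0.all okE) = true) (hD : SortD p q m v a1 a2 c1 c2)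
    (s1 : subZ E1 m v (negE (srtE p q a1 a2 c1 c2)) = true)
    (s0 : subZ E0 m v (negE (srtE p q a1 a2 c1 c2)) = true) : NoZ m (cpl m v) := by
  have key : ∀ {E : List (ℕ × Bool)}, subZ E m v (negE (srtE p q a1 a2 c1 c2)) = true →
      ∀ e ∈ negE E, e ∈ starE m (cpl m v) ∨ e ∈ srtE p q a1 a2 c1 c2 := by
    intro E hs e he
    rcases subZ_spec hs _ (mem_negE he) with h | h
    · left
      obtain ⟨k, j, hm, hx⟩ := mem_starE h
      have e1 : e = (mm j 5 k 5, xor (mb j 5) (!((cpl m v).testBit (6 * (k : ℕ) + j)))) := by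
        rw [Prod.mk.injEq] at hx
        refine Prod.ext hx.1 ?_
        show e.2 = _
        have h2 := hx.2
        rw [cpl_tb hm]
        revert h2
        cases e.2 <;> cases mb j 5 <;> cases v.testBit (6 * (k : ℕ) + j) <;> simp
      rw [e1]
      exact starE_mem hm
    · right
      have h2 := mem_negE h
      have e1 : ((e.1, !e.2).1, !(e.1, !e.2).2) = e := by
        show (e.1, !(!e.2)) = e
        rw [Bool.not_not]
      rw [e1] at h2
      exact h2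
  exact noZ_srt (noE_of_x_neg h1 wS36 k1) (noE_of_x_neg h0 (fun _ _ => rfl) k0) hD.cpl
    (fun _ hb hM => exists_pos hD.1 hD.2.1 hD.2.2.2.2.1 hb hM) (key s1) (key s0)

/-! ### Unsorted patterns, for one or both signs of the determinant -/

/-- A pattern with positive determinant. -/
theorem noZ_of_noE {m v : ℕ} (hok : okM m v = true) (h : NoE (wS + 2 ^ 36) (starE m v)) :
    NoZ m v := by
  intro M hb hM hs hsat
  obtain ⟨h36, w36, hkj⟩ := okM_spec hok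
  refine h M hb hM (satS_of hs ?_) (starE_zst hkj hb hM hsat.1)
  have h2 := hsat.2 h36
  rw [w36] at h2
  exact h2

/-- The form of a piece as printed by the converter. -/
theorem xpiece_of {D m w w' : ℕ} {E E' : List (ℕ × Bool)} (h : XRefX D m w E 0 0) (hD : D = tabD)
    (hm : m = 2 ^ 37 - 1) (hw : w = w') (hE : E = E') :
    XRefX tabD (2 ^ 37 - 1) w' E' 0 0 := by
  subst hD hm hw hE
  exact h

end Pool.Agent.H89.Z12
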