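import Mathlib
import Pool.Agent.H89.Z12.StarSort

/-!
The self dual class: from the pieces to the table of excluded patterns of minors (MP_1e71f9_co).
-/

set_option autoImplicit false

namespace Pool.Agent.H89.Z12

open Pool.Agent.H77.Z12 Pool.Agent.H64.Z12 Pool.Agent.H28.Z12 Pool.Agent.H13.Z12
  Pool.Agent.H28.Z12.Cov Pool.Agent.H26.Z12 Pool.Agent.H72.Z12

attribute [local irreducible] chiN topN sigma

/-- A pattern with positive determinant, from signs among its minors. -/
theorem noZ_sub {m v : ℕ} {E : List (ℕ × Bool)} (h : NoE (wS + 2 ^ 36) E)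
    (hok : okM m v = true) (hE : subZ E m v [] = true) : NoZ m v := by
  intro M hb hM hs hsat
  obtain ⟨h36, w36, hkj⟩ := okM_spec hok
  have h2 := hsat.2 h36
  rw [w36] at h2
  refine h M hb hM (satS_of hs h2) fun e he => ?_
  rcases subZ_spec hE e he with h3 | h3
  · exact starE_zst hkj hb hM hsat.1 e h3
  · exact absurd h3 List.not_mem_nil

theorem neg_star {m v : ℕ} {E : List (ℕ × Bool)} (hE : subZ E m v [] = true) :
    ∀ e ∈ negE E, e ∈ starE m (cpl m v) := by
  intro e he
  rcases subZ_spec hE _ (mem_negE he) with h | h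
  · obtain ⟨k, j, hm, hx⟩ := mem_starE h
    have e1 : e = (mm j 5 k 5, xor (mb j 5) (!((cpl m v).testBit (6 * (k : ℕ) + j)))) := by
      rw [Prod.mk.injEq] at hx
      refine Prod.ext hx.1 ?_
      show e.2 = _
      have h2 := hx.2
      rw [cpl_tb hm]
      revert h2
      cases e.2 <;> cases mb j 5 <;> cases v.testBit (6 * (k : ℕ) + j) <;> simp
    rw [e1]
    exact starE_mem hm
  · exact absurd h List.not_mem_nil

/-- The complementary pattern, from the same piece. -/
theorem noZ_sub_cpl {m v : ℕ} {E : List (ℕ × Bool)}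
    (h : XRefX tabD (2 ^ 37 - 1) (wS + 2 ^ 36) E 0 0) (hk : (E.all okE) = true)
    (hok : okM m v = true) (hE : subZ E m v [] = true) : NoZ m (cpl m v) := by
  intro M hb hM hs hsat
  obtain ⟨h36, w36, hkj⟩ := okM_spec (okM_cpl hok)
  have h2 := hsat.2 h36
  rw [w36] at h2
  exact noE_of_x_neg h wS36 hk M hb hM (satS_of hs h2) fun e he =>
    starE_zst hkj hb hM hsat.1 e (neg_star hE e he)

theorem noZ_cast {m v v' : ℕ} (h : NoZ m v) (e : Nat.beq v v' = true) : NoZ m v' :=
  Nat.eq_of_beq_eq_true e ▸ h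

/-- Excluded patterns. -/
def Rows (L : List (ℕ × ℕ)) : Prop := ∀ r ∈ L, NoZ r.1 r.2

theorem rows_nil : Rows [] := fun _ h => absurd h List.not_mem_nil

theorem rows_cons {m v : ℕ} {L : List (ℕ × ℕ)} (h : NoZ m v) (hL : Rows L) :
    Rows ((m, v) :: L) := by
  intro r hr
  rcases List.mem_cons.1 hr with rfl | hr
  · exact h
  · exact hL r hr

/-- The entries `a, a + 1, ..` of the table `G` are the list `L`. -/
def segB (G : ℕ) : ℕ → List (ℕ × ℕ) → Bool
  | _, [] => true
  | a, r :: L => Nat.beq (ngM G a) r.1 && Nat.beq (ngV G a) r.2 && segB G (a + 1) L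

theorem segB_spec {G : ℕ} : ∀ {L : List (ℕ × ℕ)} {a : ℕ}, segB G a L = true → Rows L →
    ∀ i, a ≤ i → i < a + L.length → NoZ (ngM G i) (ngV G i)
  | [], a, _, _, i, h1, h2 => by
    rw [List.length_nil] at h2
    omega
  | r :: L, a, h, hL, i, h1, h2 => by
    rw [segB, Bool.and_eq_true, Bool.and_eq_true] at h
    rcases Nat.eq_or_lt_of_le h1 with rfl | h3
    · rw [Nat.eq_of_beq_eq_true h.1.1, Nat.eq_of_beq_eq_true h.1.2]
      exact hL r (List.mem_cons_self)
    · refine segB_spec h.2 (fun x hx => hL x (List.mem_cons_of_mem _ hx)) i h3 ?_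
      rw [List.length_cons] at h2
      omega

end Pool.Agent.H89.Z12
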